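import Pool.Agent.Helper81.TD.Defs
import Pool.Agent.Helper68.BR.CDefs
import Pool.Agent.Helper68.BR.LfB
import Pool.Agent.Helper68.BR.UTMem

/-!
# Project TD, block S: definitions for the groups `K` over `PSL_n(k)`
-/

namespace Pool.Agent.Helper68.TS

open Matrix Pool.Agent.Helper68.BR

section mat

variable {n : ℕ} {k : Type} [Field k]

/-- `g` is a monomial matrix, its nonzero entries are at the places `(i, σ i)` -/
def MP (σ : Equiv.Perm (Fin n)) (g : SpecialLinearGroup (Fin n) k) : Prop :=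
  ∀ i j, j ≠ σ i → g.1 i j = 0

theorem MP.isMon {σ : Equiv.Perm (Fin n)} {g : SpecialLinearGroup (Fin n) k} (h : MP σ g) :
    IsMon g := ⟨σ, h⟩

theorem MP.ne {σ : Equiv.Perm (Fin n)} {g : SpecialLinearGroup (Fin n) k} (h : MP σ g)
    (i : Fin n) : g.1 i (σ i) ≠ 0 := by
  intro h0
  have h1 : g.1.det = 0 := by
    refine Matrix.det_eq_zero_of_row_eq_zero i fun j => ?_
    by_cases hj : j = σ i
    · rw [hj]; exact h0
    · exact h i j hj
  rw [g.2] at h1
  exact one_ne_zero h1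

theorem MP.mul_apply {σ : Equiv.Perm (Fin n)} {g : SpecialLinearGroup (Fin n) k} (h : MP σ g)
    (g' : SpecialLinearGroup (Fin n) k) (i j : Fin n) :
    (g * g').1 i j = g.1 i (σ i) * g'.1 (σ i) j := by
  change (g.1 * g'.1) i j = _
  rw [Matrix.mul_apply]
  refine Finset.sum_eq_single _ (fun l _ hl => ?_) (fun hl => absurd (Finset.mem_univ _) hl)
  rw [h i l hl, zero_mul]

theorem MP.apply_mul {σ : Equiv.Perm (Fin n)} {g : SpecialLinearGroup (Fin n) k} (h : MP σ g)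
    (g' : SpecialLinearGroup (Fin n) k) (i j : Fin n) :
    (g' * g).1 i (σ j) = g'.1 i j * g.1 j (σ j) := by
  change (g'.1 * g.1) i (σ j) = _
  rw [Matrix.mul_apply]
  refine Finset.sum_eq_single _ (fun l _ hl => ?_) (fun hl => absurd (Finset.mem_univ _) hl)
  rw [h l (σ j) (fun hh => hl (σ.injective hh).symm), mul_zero]

theorem MP.mul {σ τ : Equiv.Perm (Fin n)} {g g' : SpecialLinearGroup (Fin n) k} (h : MP σ g)
    (h' : MP τ g') : MP (τ * σ) (g * g') := by
  intro i j hj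
  rw [h.mul_apply, h' _ _ hj, mul_zero]

theorem MP.inv {σ : Equiv.Perm (Fin n)} {g : SpecialLinearGroup (Fin n) k} (h : MP σ g) :
    MP σ⁻¹ g⁻¹ := by
  intro i j hj
  have h1 : (g⁻¹ * g).1 i (σ j) = 0 := by
    rw [inv_mul_cancel]
    refine Matrix.one_apply_ne fun hh => hj ?_
    rw [hh]
    exact (σ.symm_apply_apply j).symm
  rw [h.apply_mul] at h1
  exact (mul_eq_zero.1 h1).resolve_right (h.ne j)

theorem MP.unique {σ τ : Equiv.Perm (Fin n)} {g : SpecialLinearGroup (Fin n) k} (h : MP σ g)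
    (h' : MP τ g) : σ = τ := by
  ext i
  by_contra hne
  exact h.ne i (h' i (σ i) fun hh => hne (congrArg Fin.val hh))

theorem mp_one_iff {g : SpecialLinearGroup (Fin n) k} : MP 1 g ↔ g ∈ DG n k :=
  ⟨fun h i j hij => h i j fun hh => hij hh.symm, fun h i j hij => h i j fun hh => hij hh.symm⟩

end mat

section lift

variable {n : ℕ} {k : Type} [Field k] {K : Type} [Group K]

/-- what we need to know about the `p`-group `P` in `K` which lifts `TP` -/
structure PD (p : ℕ) (f : K →* ProjectiveSpecialLinearGroup (Fin n) k) (P : Subgroup K) :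
    Prop where
  pgroup : IsPGroup p P
  comm : ∀ a ∈ P, ∀ b ∈ P, a * b = b * a
  down : ∀ x ∈ P, ∃ z ∈ TP n k p, Lf f x z
  up : ∀ z ∈ TP n k p, ∃ x ∈ P, Lf f x z
  mon : ∀ m : K, ∀ g, IsMon g → Lf f m g → m ∈ Subgroup.normalizer (P : Set K)

/-- the elements over monomial matrices -/
def NN (f : K →* ProjectiveSpecialLinearGroup (Fin n) k) : Subgroup K where
  carrier := {y | ∃ σ g, MP σ g ∧ Lf f y g}
  one_mem' := ⟨1, 1, mp_one_iff.2 (Subgroup.one_mem _), lf_one.2 (Subgroup.one_mem _)⟩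
  mul_mem' := by
    rintro a b ⟨σ, g, hg, ha⟩ ⟨τ, g', hg', hb⟩
    exact ⟨_, _, hg.mul hg', ha.mul hb⟩
  inv_mem' := by
    rintro a ⟨σ, g, hg, ha⟩
    exact ⟨_, _, hg.inv, ha.inv⟩

/-- the elements over diagonal matrices -/
def DT (f : K →* ProjectiveSpecialLinearGroup (Fin n) k) : Subgroup K where
  carrier := {y | ∃ g ∈ DG n k, Lf f y g}
  one_mem' := ⟨1, Subgroup.one_mem _, lf_one.2 (Subgroup.one_mem _)⟩
  mul_mem' := by
    rintro a b ⟨g, hg, ha⟩ ⟨g', hg', hb⟩
    exact ⟨_, Subgroup.mul_mem _ hg hg', ha.mul hb⟩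
  inv_mem' := by
    rintro a ⟨g, hg, ha⟩
    exact ⟨_, Subgroup.inv_mem _ hg, ha.inv⟩

theorem mem_NN {f : K →* ProjectiveSpecialLinearGroup (Fin n) k} {y : K} :
    y ∈ NN f ↔ ∃ σ g, MP σ g ∧ Lf f y g := Iff.rfl

theorem mem_DT {f : K →* ProjectiveSpecialLinearGroup (Fin n) k} {y : K} :
    y ∈ DT f ↔ ∃ g ∈ DG n k, Lf f y g := Iff.rfl

end lift

end Pool.Agent.Helper68.TS
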