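import Pool.Agent.Helper68.BR.FratG

/-!
# TS-11: a criterion for `Frat`, relative form (MP_5ecade_al, project TD, block S)

`frat_rel`: COPY of Helper68/BR/FratG.lean (`frat_of`; its private lemmas have to be copied too), where `¬ p ∣ P.index` is replaced by `¬ p ∣ P.relIndex (Nm W)`: only the lemma `sylow_cj_in` changes: `P` and `g⁻¹ P g` are
`p`-subgroups of `B = Nm W` of the same order, so both are Sylow subgroups of `B` (`P.relIndex B = (P.subgroupOf B).index`, for `Q = P.map (cj g⁻¹) ≤ B`: `|Q| = |P|` and `|B| = |P| * P.relIndex B`, so `Q.relIndex B = P.relIndex B`).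
`sylow_of_max`: let `Q` be a Sylow `p`-subgroup of `↥B` containing `P.subgroupOf B` (`IsPGroup.exists_le_sylow`). If `P.subgroupOf B ≠ Q` then, `Q` being a `p`-group (nilpotent; Mathlib: `IsPGroup` normalizer condition, `Group.IsNilpotent`,
`normalizerCondition_of_isNilpotent` applied to the subgroup `P'` of `↥Q`), there is an `x ∈ Q`, not in `P`, which normalizes `P`; it has `p`-power order: contradiction to `hmax`. So `P.subgroupOf B = Q` has index prime to `p`.
-/

namespace Pool.Agent.Helper68.TS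

open Matrix Pool.Agent.Helper68.BR

private abbrev cj {K : Type} [Group K] (g : K) : K →* K := (MulAut.conj g).toMonoidHom

private theorem mem_map_cj {K : Type} [Group K] (g x : K) (H : Subgroup K) :
    x ∈ H.map (cj g) ↔ g⁻¹ * x * g ∈ H := by
  rw [Subgroup.mem_map_equiv, MulAut.conj_symm_apply]

private theorem map_cj_mul {K : Type} [Group K] (g h : K) (H : Subgroup K) :
    H.map (cj (g * h)) = (H.map (cj h)).map (cj g) := by
  ext x
  rw [mem_map_cj, mem_map_cj, mem_map_cj, _root_.mul_inv_rev]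
  simp only [mul_assoc]

private theorem map_cj_one {K : Type} [Group K] (H : Subgroup K) : H.map (cj 1) = H := by
  ext x
  rw [mem_map_cj]
  simp

private theorem mem_norm {K : Type} [Group K] (g : K) (H : Subgroup K) :
    g ∈ Nm H ↔ H.map (cj g) = H := by
  rw [Subgroup.mem_normalizer_iff'', Subgroup.ext_iff]
  refine forall_congr' fun x => ?_
  rw [mem_map_cj]
  exact ⟨fun h => h.symm, fun h => h.symm⟩

private theorem sylow_cj {K : Type} [Group K] [Finite K] {p : ℕ} [Fact p.Prime] {P Q : Subgroup K}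
    (hP : IsPGroup p P) (hPi : ¬ p ∣ P.index) (hQ : IsPGroup p Q) (hQi : ¬ p ∣ Q.index) :
    ∃ g : K, Q = P.map (cj g) := by
  obtain ⟨g, hg⟩ := MulAction.exists_smul_eq K (hP.toSylow hPi) (hQ.toSylow hQi)
  refine ⟨g, ?_⟩
  have h1 := congrArg (fun S : Sylow p K => (S : Subgroup K)) hg
  simp only [IsPGroup.toSylow_coe] at h1
  rw [← h1, Sylow.coe_subgroup_smul]
  rfl

private theorem index_cj {K : Type} [Group K] (g : K) (H : Subgroup K) :
    (H.map (cj g)).index = H.index := Subgroup.index_map_equiv H (MulAut.conj g)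

private theorem sylow_cj_in {K : Type} [Group K] [Finite K] {p : ℕ} [Fact p.Prime]
    {P Q N : Subgroup K} (hP : IsPGroup p P) (hPi : ¬ p ∣ P.relIndex N) (hQ : IsPGroup p Q)
    (hQi : ¬ p ∣ Q.relIndex N) (hPN : P ≤ N) (hQN : Q ≤ N) : ∃ h ∈ N, Q = P.map (cj h) := by
  have hP' : IsPGroup p (P.subgroupOf N) := hP.comap_of_injective N.subtype N.subtype_injective
  have hQ' : IsPGroup p (Q.subgroupOf N) := hQ.comap_of_injective N.subtype N.subtype_injective
  obtain ⟨h, hh⟩ := sylow_cj (K := N) hP' hPi hQ' hQi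
  refine ⟨h, h.2, ?_⟩
  ext x
  rw [mem_map_cj]
  constructor
  · intro hx
    have h1 : (⟨x, hQN hx⟩ : N) ∈ Q.subgroupOf N := Subgroup.mem_subgroupOf.2 hx
    rw [hh, mem_map_cj] at h1
    exact Subgroup.mem_subgroupOf.1 h1
  · intro hx
    have hxN : x ∈ N := by
      have h2 := N.mul_mem (N.mul_mem h.2 (hPN hx)) (N.inv_mem h.2)
      have e : (h : K) * ((h : K)⁻¹ * x * h) * (h : K)⁻¹ = x := by group
      rwa [e] at h2
    have h1 : (⟨x, hxN⟩ : N) ∈ Q.subgroupOf N := by
      rw [hh, mem_map_cj]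
      exact Subgroup.mem_subgroupOf.2 hx
    exact Subgroup.mem_subgroupOf.1 h1

private theorem relIndex_eq_of_card {K : Type} [Group K] [Finite K] {P Q N : Subgroup K}
    (hPN : P ≤ N) (hQN : Q ≤ N) (hc : Nat.card P = Nat.card Q) : Q.relIndex N = P.relIndex N := by
  have h1 : Nat.card (P.subgroupOf N) * P.relIndex N = Nat.card N :=
    (P.subgroupOf N).card_mul_index
  have h2 : Nat.card (Q.subgroupOf N) * Q.relIndex N = Nat.card N :=
    (Q.subgroupOf N).card_mul_index
  have h3 : Nat.card (P.subgroupOf N) = Nat.card P :=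
    Nat.card_congr (Subgroup.subgroupOfEquivOfLe hPN).toEquiv
  have h4 : Nat.card (Q.subgroupOf N) = Nat.card Q :=
    Nat.card_congr (Subgroup.subgroupOfEquivOfLe hQN).toEquiv
  rw [h3] at h1
  rw [h4, ← hc] at h2
  have h5 : 0 < Nat.card P := Nat.card_pos
  exact Nat.eq_of_mul_eq_mul_left h5 (h2.trans h1.symm)

private theorem exists_sylow_in {K : Type} [Group K] [Finite K] {r : ℕ} [Fact r.Prime]
    {W : Subgroup K} (hZ : Subgroup.center K ≤ W)
    (hWr : ∀ w ∈ W, ∃ N : ℕ, w ^ r ^ N ∈ Subgroup.center K) (hWi : ¬ r ∣ W.index) :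
    ∃ V : Subgroup K, IsPGroup r V ∧ ¬ r ∣ V.index ∧ W = V ⊔ Subgroup.center K := by
  obtain ⟨S⟩ : Nonempty (Sylow r W) := inferInstance
  have hV : IsPGroup r ((S : Subgroup W).map W.subtype) := S.isPGroup'.map _
  have hVW : (S : Subgroup W).map W.subtype ≤ W := Subgroup.map_subtype_le _
  have hi : ¬ r ∣ ((S : Subgroup W).map W.subtype).index := by
    rw [Subgroup.index_map_subtype]
    intro h
    rcases (Fact.out : r.Prime).dvd_mul.1 h with h | h
    · exact S.not_dvd_index h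
    · exact hWi h
  refine ⟨_, hV, hi, le_antisymm ?_ (sup_le hVW hZ)⟩
  have hq : IsPGroup r (W ⧸ (Subgroup.center K).subgroupOf W) := by
    intro x
    induction x using QuotientGroup.induction_on with
    | H w =>
      obtain ⟨N, hN⟩ := hWr w w.2
      refine ⟨N, ?_⟩
      rw [← QuotientGroup.mk_pow, QuotientGroup.eq_one_iff]
      exact Subgroup.mem_subgroupOf.2 hN
  obtain ⟨k, hk⟩ := hq.exists_card_eq
  have h1 : ((S : Subgroup W).map W.subtype ⊔ Subgroup.center K).relIndex W ∣ r ^ k := by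
    rw [← hk]
    exact Subgroup.relIndex_dvd_of_le_left W le_sup_right
  have h2 : ((S : Subgroup W).map W.subtype ⊔ Subgroup.center K).relIndex W ∣
      ((S : Subgroup W).map W.subtype).index :=
    (Subgroup.relIndex_dvd_of_le_left W le_sup_left).trans (Subgroup.relIndex_dvd_index_of_le hVW)
  have h3 := Nat.Prime.coprime_pow_of_not_dvd (m := k) (Fact.out : r.Prime) hi
  exact Subgroup.relIndex_eq_one.1 (Nat.eq_one_of_dvd_coprimes h3 h2 h1)

private theorem norm_of {K : Type} [Group K] {S W : Subgroup K}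
    (h : ∀ x ∈ S, ∀ w ∈ W, x * w * x⁻¹ ∈ W) : S ≤ Nm W := by
  intro x hx
  rw [Subgroup.mem_normalizer_iff]
  intro w
  refine ⟨fun hw => h x hx w hw, fun hw => ?_⟩
  have h1 := h x⁻¹ (S.inv_mem hx) _ hw
  have e : x⁻¹ * (x * w * x⁻¹) * x⁻¹⁻¹ = w := by group
  rwa [e] at h1

theorem frat_rel {K : Type} [Group K] [Finite K] {p r : ℕ} [Fact p.Prime] [Fact r.Prime]
    {P W U : Subgroup K} (hP : IsPGroup p P) (hPi : ¬ p ∣ P.relIndex (Nm W))
    (hZ : Subgroup.center K ≤ W) (hWr : ∀ w ∈ W, ∃ N : ℕ, w ^ r ^ N ∈ Subgroup.center K)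
    (hWi : ¬ r ∣ W.index) (hPW : ∀ x ∈ P, ∀ w ∈ W, x * w * x⁻¹ ∈ W) (hU : U = ⁅W, P⁆) :
    Frat P U := by
  intro α hα
  obtain ⟨V, hV, hVi, hWV⟩ := exists_sylow_in hZ hWr hWi
  have hPα : P.map α.toMonoidHom = P := by
    ext x
    rw [Subgroup.mem_map_equiv]
    have := hα (α.symm x)
    rw [MulEquiv.apply_symm_apply] at this
    exact this.symm
  have hchar := Subgroup.characteristic_iff_map_eq.1
    (inferInstance : (Subgroup.center K).Characteristic)
  obtain ⟨g, hg⟩ := sylow_cj hV hVi (Q := V.map α.toMonoidHom) (hV.map _)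
    (by rw [show (V.map α.toMonoidHom).index = V.index from Subgroup.index_map_equiv V α]; exact hVi)
  have hWg : W.map α.toMonoidHom = W.map (cj g) := by
    rw [hWV, Subgroup.map_sup, Subgroup.map_sup, hg, hchar α, hchar (MulAut.conj g)]
  have hPN : P ≤ Nm W := norm_of hPW
  have hP2N : P.map (cj g⁻¹) ≤ Nm W := by
    apply norm_of
    intro x hx w hw
    rw [mem_map_cj, inv_inv] at hx
    have h1 : g * x * g⁻¹ ∈ P.map α.toMonoidHom := by rw [hPα]; exact hx
    obtain ⟨y, hy, hyx⟩ := Subgroup.mem_map.1 h1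
    have h2 : g * w * g⁻¹ ∈ W.map α.toMonoidHom := by
      rw [hWg, mem_map_cj]
      have e : g⁻¹ * (g * w * g⁻¹) * g = w := by group
      rwa [e]
    obtain ⟨v, hv, hvw⟩ := Subgroup.mem_map.1 h2
    have h3 : α.toMonoidHom (y * v * y⁻¹) ∈ W.map α.toMonoidHom :=
      Subgroup.mem_map_of_mem _ (hPW y hy v hv)
    rw [map_mul, map_mul, map_inv, hyx, hvw, hWg, mem_map_cj] at h3
    have e : g⁻¹ * (g * x * g⁻¹ * (g * w * g⁻¹) * (g * x * g⁻¹)⁻¹) * g = x * w * x⁻¹ := by group
    rwa [e] at h3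
  obtain ⟨h, hhN, hh⟩ := sylow_cj_in hP hPi (Q := P.map (cj g⁻¹)) (hP.map _)
    (by
      rw [relIndex_eq_of_card hPN hP2N
        (Nat.card_congr (Subgroup.equivMapOfInjective P (cj g⁻¹) (MulAut.conj g⁻¹).injective).toEquiv)]
      exact hPi) hPN hP2N
  have hPn : P.map (cj (g * h)) = P := by
    rw [map_cj_mul, ← hh, ← map_cj_mul, mul_inv_cancel, map_cj_one]
  have hWn : W.map (cj (g * h)) = W.map α.toMonoidHom := by
    rw [map_cj_mul, (mem_norm h W).1 hhN, hWg]
  refine ⟨g * h, (mem_norm _ _).2 hPn, fun x => ?_⟩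
  have hUn : U.map (cj (g * h)) = U.map α.toMonoidHom := by
    rw [hU, Subgroup.map_commutator, Subgroup.map_commutator, hPn, hWn, hPα]
  rw [← mem_map_cj, hUn, Subgroup.mem_map_equiv, MulEquiv.symm_apply_apply]

theorem sylow_of_max {K : Type} [Group K] [Finite K] {p : ℕ} [Fact p.Prime] {P B : Subgroup K}
    (hP : IsPGroup p P) (hPB : P ≤ B)
    (hmax : ∀ x ∈ B, x ∈ Nm P → (∃ N : ℕ, x ^ p ^ N = 1) → x ∈ P) : ¬ p ∣ P.relIndex B := by
  have hP' : IsPGroup p (P.subgroupOf B) := hP.comap_of_injective B.subtype B.subtype_injective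
  obtain ⟨Q, hQ⟩ := hP'.exists_le_sylow
  by_cases hEq : P.subgroupOf B = (Q : Subgroup B)
  · intro h
    have h1 : p ∣ (P.subgroupOf B).index := h
    rw [hEq] at h1
    exact Q.not_dvd_index h1
  · exfalso
    have hnil : Group.IsNilpotent (Q : Subgroup B) := Q.isPGroup'.isNilpotent
    have hlt : (P.subgroupOf B).subgroupOf (Q : Subgroup B) < ⊤ := by
      rw [lt_top_iff_ne_top]
      intro h
      exact hEq (le_antisymm hQ (Subgroup.subgroupOf_eq_top.1 h))
    have hnc := Group.normalizerCondition_of_isNilpotent (G := (Q : Subgroup B)) _ hlt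
    obtain ⟨x, hx1, hx2⟩ := SetLike.exists_of_lt hnc
    have hxQ := Q.isPGroup' x
    obtain ⟨k, hk⟩ := hxQ
    have key : ∀ y : (Q : Subgroup B), ((y : B) : K) ∈ P ↔
        y ∈ (P.subgroupOf B).subgroupOf (Q : Subgroup B) := by
      intro y
      rw [Subgroup.mem_subgroupOf, Subgroup.mem_subgroupOf]
    have hxP : ((x : B) : K) ∈ P := by
      refine hmax _ (x : B).2 ?_ ⟨k, ?_⟩
      · have conj : ∀ z : (Q : Subgroup B),
            z ∈ Subgroup.normalizer ((P.subgroupOf B).subgroupOf (Q : Subgroup B)) →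
            ∀ y ∈ P, ((z : B) : K) * y * ((z : B) : K)⁻¹ ∈ P := by
          intro z hz y hy
          have hyQ : (⟨y, hPB hy⟩ : B) ∈ (Q : Subgroup B) := hQ (Subgroup.mem_subgroupOf.2 hy)
          have h1 : (⟨⟨y, hPB hy⟩, hyQ⟩ : (Q : Subgroup B)) ∈
              (P.subgroupOf B).subgroupOf (Q : Subgroup B) := (key _).1 hy
          have h2 := (Subgroup.mem_normalizer_iff.1 hz _).1 h1
          exact (key _).2 h2
        rw [Subgroup.mem_normalizer_iff]
        intro y
        refine ⟨fun hy => conj x hx1 y hy, fun hy => ?_⟩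
        have h3 := conj x⁻¹ (Subgroup.inv_mem _ hx1) _ hy
        have e : (((x⁻¹ : (Q : Subgroup B)) : B) : K) *
            (((x : B) : K) * y * ((x : B) : K)⁻¹) * (((x⁻¹ : (Q : Subgroup B)) : B) : K)⁻¹ = y := by
          push_cast
          group
        rwa [e] at h3
      · have h4 := congrArg (fun z : (Q : Subgroup B) => ((z : B) : K)) hk
        simpa using h4
    exact hx2 ((key x).1 hxP)

end Pool.Agent.Helper68.TS
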