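import Pool.Agent.Helper68.TS.Sim

/-!
# TS-09: `N` is generated by the simple elements and the torus (MP_5ecade_al, project TD, block S)

`n = n' + 1` (`hn`). Every permutation is in the submonoid generated by the `swap i.castSucc i.succ` (Mathlib `Equiv.Perm.mclosure_swap_castSucc_succ`). Claim for every `τ` in this closure: every `y` lifting
`g` with `MP τ g` is in the closure `C`. Induction (`Submonoid.closure_induction_left` or `_right`, or `Submonoid.induction_of_closure_eq_top_left`): `τ = 1`: `g ∈ DG` (`mp_one_iff`), `y ∈ DT = TT` (`TT_eq`). `τ = s * τ'` or `τ' * s`: let `m` be monomial with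
permutation `s = swap i j`, `j = i + 1` (`exists_swap`), `y₀` a lift (`exists_lf`), simple by `sim_of`. By `MP.mul` (the order is reversed: `MP σ g, MP τ g' ⟹ MP (τ * σ) (g * g')`) `y₀⁻¹ y` or `y y₀⁻¹` lifts a matrix with the
permutation `τ'` (`MP.inv`, `s⁻¹ = s`).
-/

namespace Pool.Agent.Helper68.TS

open Matrix Pool.Agent.Helper68.BR

variable {n : ℕ} {k : Type} [Field k] [Finite k] {K : Type} [Group K] [Finite K] {p : ℕ} [Fact p.Prime]
  {f : K →* ProjectiveSpecialLinearGroup (Fin n) k} {P : Subgroup K}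

theorem gen_psl (hn : 3 ≤ n) (hp : 5 ≤ p) (hq : p ∣ Nat.card k - 1)
    (hf : Function.Surjective f) (hc : f.ker ≤ Subgroup.center K) (hz : ¬ p ∣ Nat.card f.ker)
    (hP : PD p f P) {y : K} (hy : y ∈ NN f) :
    y ∈ Subgroup.closure ({m | Pool.Agent.Helper81.TD.IsSim P (UU f P) (NN f) m} ∪
      (Pool.Agent.Helper81.TD.TT P (NN f) : Set K)) := by
  obtain ⟨n', rfl⟩ : ∃ n', n = n' + 1 := ⟨n - 1, by omega⟩
  have key : ∀ τ : Equiv.Perm (Fin (n' + 1)),
      τ ∈ Submonoid.closure (Set.range fun i : Fin n' => Equiv.swap i.castSucc i.succ) →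
      ∀ (y : K) (g : SpecialLinearGroup (Fin (n' + 1)) k), MP τ g → Lf f y g →
      y ∈ Subgroup.closure ({m | Pool.Agent.Helper81.TD.IsSim P (UU f P) (NN f) m} ∪
        (Pool.Agent.Helper81.TD.TT P (NN f) : Set K)) := by
    intro τ hτ
    induction hτ using Submonoid.closure_induction_left with
    | one =>
      intro y g hg hyg
      refine Subgroup.subset_closure (Or.inr ?_)
      rw [TT_eq hp hq hz hP]
      exact mem_DT.2 ⟨g, mp_one_iff.1 hg, hyg⟩
    | mul_left s hs τ' hτ' ih =>
      intro y g hg hyg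
      obtain ⟨i, rfl⟩ := hs
      have hij : ((i.castSucc : Fin (n' + 1)) : ℕ) + 1 = (i.succ : Fin (n' + 1)) := by simp
      have hne : i.castSucc ≠ i.succ := by
        intro hh
        rw [← hh] at hij
        omega
      obtain ⟨m, hm⟩ := exists_swap (k := k) hne
      obtain ⟨y₀, hy₀⟩ := exists_lf hf m
      have h1 := sim_of hn hp hq hf hc hz hP hij hm hy₀
      have h2 : MP τ' (g * m⁻¹) := by
        have h3 := hg.mul hm.inv
        rwa [inv_mul_cancel_left] at h3
      have h4 := ih (y * y₀⁻¹) (g * m⁻¹) h2 (hyg.mul hy₀.inv)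
      have h5 := Subgroup.mul_mem _ h4 (Subgroup.subset_closure (Or.inl h1))
      rwa [inv_mul_cancel_right] at h5
  obtain ⟨σ, g, hg, hyg⟩ := hy
  refine key σ ?_ y g hg hyg
  rw [Equiv.Perm.mclosure_swap_castSucc_succ]
  exact Submonoid.mem_top _

end Pool.Agent.Helper68.TS
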