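import Pool.Agent.Helper68.TS.Defs
import Pool.Agent.Helper68.BR.Wt

/-!
# TS-05: the normalizer of `P` (MP_5ecade_al, project TD, block S)

`mon_of_norm` (matrices): suppose that for every `z ∈ TP` there is a diagonal `z'` with `g z = z' g` (as matrices in `SL_n`). Entry `(i, j)`: `g i j * z j = z' i * g i j`. If `g i j ≠ 0` and
`g i j' ≠ 0` with `j ≠ j'` then `z j = z' i = z j'` for all `z ∈ TP`, against `exists_wt'` (Helper68/BR/Wt.lean). Every row has a nonzero entry (determinant
`1`, `Matrix.det_eq_zero_of_row_eq_zero`), so there is a function `s` with `g i j ≠ 0 ↔ j = s i`; `s` is injective: if `s i = s i'`, `i ≠ i'`, then the rows `i` and `i'` are proportional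
(or: column `j` not in the range of `s` is zero, `Matrix.det_eq_zero_of_column_eq_zero`; `s` is surjective, so bijective, `Finite.injective_iff_surjective`). `σ = Equiv.ofBijective s`.
`nm_le`: `y ∈ N_K(P)` lifts some `g` (`exists_lf'`). `z ∈ TP`, `x ∈ P` its lift: `x' = y x y⁻¹ ∈ P` lifts some `z' ∈ TP` (`PD.down`) and `g z g⁻¹`, so `g z g⁻¹ = z' c`, `c` central, a scalar matrix,
so `z' c ∈ DG`.
-/

namespace Pool.Agent.Helper68.TS

open Matrix Pool.Agent.Helper68.BR

variable {n : ℕ} {k : Type} [Field k] [Finite k] {K : Type} [Group K] {p : ℕ} [Fact p.Prime]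
  {f : K →* ProjectiveSpecialLinearGroup (Fin n) k} {P : Subgroup K}

theorem mon_of_norm (hp : 5 ≤ p) (hq : p ∣ Nat.card k - 1) {g : SpecialLinearGroup (Fin n) k}
    (h : ∀ z ∈ TP n k p, ∃ z' ∈ DG n k, g * z = z' * g) : ∃ σ, MP σ g := by
  classical
  have hrow : ∀ i, ∃ j, g.1 i j ≠ 0 := by
    intro i
    by_contra hne
    push Not at hne
    have h1 : g.1.det = 0 := Matrix.det_eq_zero_of_row_eq_zero i hne
    rw [g.2] at h1
    exact one_ne_zero h1
  have hcol : ∀ j, ∃ i, g.1 i j ≠ 0 := by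
    intro j
    by_contra hne
    push Not at hne
    have h1 : g.1.det = 0 := Matrix.det_eq_zero_of_column_eq_zero j hne
    rw [g.2] at h1
    exact one_ne_zero h1
  have huniq : ∀ i j j', g.1 i j ≠ 0 → g.1 i j' ≠ 0 → j = j' := by
    intro i j j' hj hj'
    by_contra hne
    obtain ⟨z, hz, hzz⟩ := exists_wt' (k := k) (p := p) hp hq hne
    obtain ⟨z', hz', he⟩ := h z hz
    have key : ∀ l, g.1 i l * z.1 l l = z'.1 i i * g.1 i l := by
      intro l
      have e1 : (g * z).1 i l = g.1 i l * z.1 l l := by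
        change (g.1 * z.1) i l = _
        rw [Matrix.mul_apply]
        refine Finset.sum_eq_single _ (fun m _ hm => ?_) (fun hm => absurd (Finset.mem_univ _) hm)
        rw [hz.1 m l hm, mul_zero]
      have e2 : (z' * g).1 i l = z'.1 i i * g.1 i l := by
        change (z'.1 * g.1) i l = _
        rw [Matrix.mul_apply]
        refine Finset.sum_eq_single _ (fun m _ hm => ?_) (fun hm => absurd (Finset.mem_univ _) hm)
        rw [hz' i m (Ne.symm hm), zero_mul]
      rw [← e1, ← e2, he]
    have k1 : z.1 j j = z'.1 i i := by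
      have := key j
      rw [mul_comm (z'.1 i i)] at this
      exact mul_left_cancel₀ hj this
    have k2 : z.1 j' j' = z'.1 i i := by
      have := key j'
      rw [mul_comm (z'.1 i i)] at this
      exact mul_left_cancel₀ hj' this
    exact hzz (k1.trans k2.symm)
  choose s hs using hrow
  have hsurj : Function.Surjective s := by
    intro j
    obtain ⟨i, hi⟩ := hcol j
    exact ⟨i, huniq i _ _ (hs i) hi⟩
  have hinj : Function.Injective s := Finite.injective_iff_surjective.2 hsurj
  refine ⟨Equiv.ofBijective s ⟨hinj, hsurj⟩, fun i j hj => ?_⟩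
  by_contra hne
  exact hj (huniq i _ _ hne (hs i))

private theorem center_dg {c : SpecialLinearGroup (Fin n) k}
    (hc : c ∈ Subgroup.center (SpecialLinearGroup (Fin n) k)) : c ∈ DG n k := by
  obtain ⟨r, -, hr⟩ := Matrix.SpecialLinearGroup.mem_center_iff.1 hc
  intro i j hij
  rw [← hr]
  simp [Matrix.scalar_apply, hij]

theorem nm_le (hp : 5 ≤ p) (hq : p ∣ Nat.card k - 1) (hP : PD p f P) :
    Subgroup.normalizer (P : Set K) ≤ NN f := by
  intro y hy
  obtain ⟨g, hg⟩ := exists_lf' f y
  have h : ∀ z ∈ TP n k p, ∃ z' ∈ DG n k, g * z = z' * g := by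
    intro z hz
    obtain ⟨x, hx, hxz⟩ := hP.up z hz
    have hy' : y * x * y⁻¹ ∈ P := (Subgroup.mem_normalizer_iff.1 hy x).1 hx
    obtain ⟨z1, hz1, hl⟩ := hP.down _ hy'
    have hl' : Lf f (y * x * y⁻¹) (g * z * g⁻¹) := (hg.mul hxz).mul hg.inv
    obtain ⟨c, hc, he⟩ := hl'.center hl
    refine ⟨z1 * c, Subgroup.mul_mem _ hz1.1 (center_dg hc), ?_⟩
    rw [← he]
    group
  obtain ⟨σ, hσ⟩ := mon_of_norm hp hq h
  exact ⟨σ, g, hσ, hg⟩

end Pool.Agent.Helper68.TS
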