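import Pool.Agent.Helper68.TS.Wt2

/-!
# TS-04: the torus (MP_5ecade_al, project TD, block S)
-/

namespace Pool.Agent.Helper68.TS

open Matrix Pool.Agent.Helper68.BR

variable {n : ℕ} {k : Type} [Field k] [Finite k] {K : Type} [Group K] [Finite K] {p : ℕ} [Fact p.Prime]
  {f : K →* ProjectiveSpecialLinearGroup (Fin n) k} {P : Subgroup K}

theorem cent_mp (hp : 5 ≤ p) (hq : p ∣ Nat.card k - 1) {σ : Equiv.Perm (Fin n)}
    {g : SpecialLinearGroup (Fin n) k} (hg : MP σ g)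
    (h : ∀ z ∈ TP n k p, ∃ c ∈ Subgroup.center (SpecialLinearGroup (Fin n) k),
      g * z = z * g * c) : σ = 1 := by
  by_contra hne
  obtain ⟨a, ha⟩ : ∃ a, σ a ≠ a := by
    by_contra hcon
    push Not at hcon
    exact hne (Equiv.ext fun a => hcon a)
  obtain ⟨u, hu, -, hu3, hu4, -⟩ := exists_zeta (k := k) hp hq
  obtain ⟨z, hz, hza, hzb, hzl⟩ := two_wt (n := n) hu (a := a) (b := σ a) (Ne.symm ha)
  obtain ⟨c, hc, he⟩ := h z hz
  obtain ⟨r, -, hr⟩ := Matrix.SpecialLinearGroup.mem_center_iff.1 hc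
  have key : ∀ i, z.1 (σ i) (σ i) = r * z.1 i i := by
    intro i
    have h1 : (g * z).1 i (σ i) = g.1 i (σ i) * z.1 (σ i) (σ i) := hg.mul_apply z i (σ i)
    have h2 : (z * g).1 i (σ i) = z.1 i i * g.1 i (σ i) := hg.apply_mul z i i
    have h3 : (z * g * c).1 i (σ i) = (z * g).1 i (σ i) * r := by
      change ((z * g).1 * c.1) i (σ i) = _
      rw [← hr]
      simp
    have h4 : g.1 i (σ i) * z.1 (σ i) (σ i) = z.1 i i * g.1 i (σ i) * r := by
      rw [← h1, he, h3, h2]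
    have h5 := hg.ne i
    apply mul_left_cancel₀ h5
    rw [h4]; ring
  have h1 := key a
  rw [hza, hzb] at h1
  have h2 := key (σ.symm a)
  rw [Equiv.apply_symm_apply, hza] at h2
  have hu0 : (u : k) ≠ 0 := u.ne_zero
  have hr' : r * (u : k) ^ 2 = 1 := by
    have h3 : (u : k) * ((u⁻¹ : kˣ) : k) = 1 := by rw [← Units.val_mul, mul_inv_cancel, Units.val_one]
    calc r * (u : k) ^ 2 = (u : k) * (r * (u : k)) := by ring
      _ = 1 := by rw [← h1, h3]
  have h4 : z.1 (σ.symm a) (σ.symm a) = (u : k) ^ 3 := by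
    calc z.1 (σ.symm a) (σ.symm a) = (r * (u : k) ^ 2) * z.1 (σ.symm a) (σ.symm a) := by
          rw [hr', one_mul]
      _ = (u : k) ^ 2 * (r * z.1 (σ.symm a) (σ.symm a)) := by ring
      _ = (u : k) ^ 3 := by rw [← h2]; ring
  have hia : σ.symm a ≠ a := by
    intro hh
    apply ha
    conv_lhs => rw [← hh]
    exact Equiv.apply_symm_apply σ a
  by_cases hib : σ.symm a = σ a
  · rw [hib, hzb] at h4
    apply hu4
    ext
    push_cast
    have h3 : (u : k) * ((u⁻¹ : kˣ) : k) = 1 := by rw [← Units.val_mul, mul_inv_cancel, Units.val_one]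
    rw [h4] at h3
    rw [← h3]; ring
  · rw [hzl _ hia hib] at h4
    apply hu3
    ext
    push_cast
    exact h4.symm

theorem TT_eq (hp : 5 ≤ p) (hq : p ∣ Nat.card k - 1) (hz : ¬ p ∣ Nat.card f.ker)
    (hP : PD p f P) : Pool.Agent.Helper81.TD.TT P (NN f) = DT f := by
  apply le_antisymm
  · rintro y ⟨hyN, hyC⟩
    obtain ⟨σ, g, hg, hy⟩ := mem_NN.1 hyN
    have hσ : σ = 1 := by
      refine cent_mp hp hq hg fun z hz => ?_
      obtain ⟨x, hx, hxz⟩ := hP.up z hz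
      have h1 : x * y = y * x := Subgroup.mem_centralizer_iff.1 hyC x hx
      have h2 : Lf f (y * x) (g * z) := hy.mul hxz
      have h3 : Lf f (y * x) (z * g) := by
        rw [← h1]; exact hxz.mul hy
      exact h2.center h3
    subst hσ
    exact mem_DT.2 ⟨g, mp_one_iff.1 hg, hy⟩
  · intro y hy'
    obtain ⟨g, hg, hy⟩ := mem_DT.1 hy'
    refine ⟨mem_NN.2 ⟨1, g, mp_one_iff.2 hg, hy⟩, Subgroup.mem_centralizer_iff.2 fun x hx => ?_⟩
    have hx : x ∈ P := hx
    obtain ⟨z, hzT, hxz⟩ := hP.down x hx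
    have hn := hP.mon y g (mp_one_iff.2 hg).isMon hy
    have h1 : y * x * y⁻¹ ∈ P := (Subgroup.mem_normalizer_iff.1 hn x).1 hx
    have h2 : y * x * y⁻¹ * x⁻¹ ∈ P := P.mul_mem h1 (P.inv_mem hx)
    have h3 : y * x * y⁻¹ * x⁻¹ ∈ f.ker := by
      have h4 : Lf f (y * x * y⁻¹ * x⁻¹) (g * z * g⁻¹ * z⁻¹) := ((hy.mul hxz).mul hy.inv).mul hxz.inv
      have h5 : g * z = z * g := dg_comm hg hzT.1
      have h6 : g * z * g⁻¹ * z⁻¹ = 1 := by rw [h5]; group
      rw [h6] at h4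
      exact lf_one.1 h4
    have h7 : y * x * y⁻¹ * x⁻¹ = 1 := by
      obtain ⟨N, hN⟩ := hP.pgroup ⟨_, h2⟩
      have hN' : (y * x * y⁻¹ * x⁻¹) ^ p ^ N = 1 := by
        have := congrArg Subtype.val hN
        simpa using this
      have h8 : orderOf (y * x * y⁻¹ * x⁻¹) ∣ p ^ N := orderOf_dvd_of_pow_eq_one hN'
      have h9 : orderOf (y * x * y⁻¹ * x⁻¹) ∣ Nat.card f.ker := by
        have := orderOf_dvd_natCard (⟨_, h3⟩ : f.ker)
        rwa [← Subgroup.orderOf_coe] at this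
      obtain ⟨j, -, hj⟩ := (Nat.dvd_prime_pow (Fact.out : p.Prime)).1 h8
      rcases Nat.eq_zero_or_pos j with h0 | h0
      · rw [h0, pow_zero] at hj
        exact orderOf_eq_one_iff.1 hj
      · exfalso
        apply hz
        refine dvd_trans ?_ h9
        rw [hj]
        exact dvd_pow_self p h0.ne'
    have h8 : y * x = x * y := by
      have h9 : y * x * y⁻¹ * x⁻¹ * (x * y) = x * y := by rw [h7, one_mul]
      rw [← h9]; group
    exact h8.symm

end Pool.Agent.Helper68.TS
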