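import Pool.Agent.Helper68.TS.UUa
import Pool.Agent.Helper68.TS.TTeq

/-!
# TS-07: the normalizer of `U` in `N` is the torus (MP_5ecade_al, project TD, block S)

`←`: `y ∈ TT = DT` (`TT_eq`) commutes with `P` and lifts `g ∈ DG`. `U` is generated by the `x v x⁻¹ v⁻¹`, `x ∈ P`, `v ∈ YY f h` (`i < j`), and `y (x v x⁻¹ v⁻¹) y⁻¹ = x v' x⁻¹ v'⁻¹` with `v' = y v y⁻¹`
(`y x y⁻¹ = x`), `v' ∈ YY f h` (`lf_conj`). (Two closure inductions, `XX` and `UU`; or `Subgroup.closure_le` into the comap of `U` under the conjugation.)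
`→`: `y ∈ NN` lifts `w`, `MP σ w`. For `i < j` let `u ∈ U` lift `tv h 1` (`uu_up`); `y u y⁻¹ ∈ U` lifts some `g ∈ UT` (`uu_down`) and `w tv w⁻¹`, so `w tv w⁻¹ = g c` with `c` central, a scalar
matrix `l`; so the entries of `w tv w⁻¹` below the diagonal are zero. But `w (1 + E_ij) w⁻¹` has at `(σ⁻¹ i, σ⁻¹ j)` the entry `w_{σ⁻¹ i, i} (w⁻¹)_{j, σ⁻¹ j} ≠ 0` (`MP.mul_apply`,
`MP.inv`, `MP.ne`; `σ⁻¹ i ≠ σ⁻¹ j`). So `σ⁻¹ i < σ⁻¹ j` for all `i < j`: `σ⁻¹` is strictly monotone, so `1` (a strictly monotone permutation of `Fin n` is the identity: `StrictMono` +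
`Subsingleton` of order automorphisms: `Subsingleton.elim` for `Fin n ≃o Fin n`). So `w ∈ DG`, `y ∈ DT = TT`.
-/

/-!
# TS-07: the normalizer of `U` in `N` is the torus (MP_5ecade_al, project TD, block S)

`←`: `y ∈ TT = DT` (`TT_eq`) commutes with `P` and lifts `g ∈ DG`. `U` is generated by the `x v x⁻¹ v⁻¹`, `x ∈ P`, `v ∈ YY f h` (`i < j`), and `y (x v x⁻¹ v⁻¹) y⁻¹ = x v' x⁻¹ v'⁻¹` with `v' = y v y⁻¹`
(`y x y⁻¹ = x`), `v' ∈ YY f h` (`lf_conj`). (Two closure inductions, `XX` and `UU`; or `Subgroup.closure_le` into the comap of `U` under the conjugation.)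
`→`: `y ∈ NN` lifts `w`, `MP σ w`. For `i < j` let `u ∈ U` lift `tv h 1` (`uu_up`); `y u y⁻¹ ∈ U` lifts some `g ∈ UT` (`uu_down`) and `w tv w⁻¹`, so `w tv w⁻¹ = g c` with `c` central, a scalar
matrix `l`; so the entries of `w tv w⁻¹` below the diagonal are zero. But `w (1 + E_ij) w⁻¹` has at `(σ⁻¹ i, σ⁻¹ j)` the entry `w_{σ⁻¹ i, i} (w⁻¹)_{j, σ⁻¹ j} ≠ 0` (`MP.mul_apply`,
`MP.inv`, `MP.ne`; `σ⁻¹ i ≠ σ⁻¹ j`). So `σ⁻¹ i < σ⁻¹ j` for all `i < j`: `σ⁻¹` is strictly monotone, so `1` (a strictly monotone permutation of `Fin n` is the identity: `StrictMono` +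
`Subsingleton` of order automorphisms: `Subsingleton.elim` for `Fin n ≃o Fin n`). So `w ∈ DG`, `y ∈ DT = TT`.
-/

namespace Pool.Agent.Helper68.TS

open Matrix Pool.Agent.Helper68.BR

variable {n : ℕ} {k : Type} [Field k] [Finite k] {K : Type} [Group K] [Finite K] {p : ℕ} [Fact p.Prime]
  {f : K →* ProjectiveSpecialLinearGroup (Fin n) k} {P : Subgroup K}

omit [Finite k] [Finite K] in
private theorem torus_conj {y : K} {g : SpecialLinearGroup (Fin n) k}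
    (hg : g ∈ DG n k) (hl : Lf f y g) (hcm : ∀ x ∈ P, x * y = y * x) :
    ∀ u ∈ UU f P, y * u * y⁻¹ ∈ UU f P := by
  have key : ∀ (i j : Fin n) (h : i < j), ∀ u ∈ XX f P h.ne, y * u * y⁻¹ ∈ XX f P h.ne := by
    intro i j h u hu
    unfold XX at hu ⊢
    induction hu using Subgroup.closure_induction with
    | mem u hu =>
      obtain ⟨x, hx, v, hv, rfl⟩ := hu
      obtain ⟨s, hs⟩ := hv
      refine Subgroup.subset_closure ⟨x, hx, y * v * y⁻¹, ⟨_, lf_conj h.ne hl hg hs⟩, ?_⟩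
      have h1 : y * x = x * y := (hcm x hx).symm
      have h2 : y⁻¹ * x⁻¹ = x⁻¹ * y⁻¹ := by
        rw [← _root_.mul_inv_rev, ← _root_.mul_inv_rev, h1]
      have h3 : x⁻¹ * y = y * x⁻¹ := by
        rw [inv_mul_eq_iff_eq_mul, ← mul_assoc, ← h1, mul_assoc, mul_inv_cancel, mul_one]
      calc y * (x * v * x⁻¹ * v⁻¹) * y⁻¹ = (y * x) * v * x⁻¹ * v⁻¹ * y⁻¹ := by group
        _ = x * y * v * x⁻¹ * v⁻¹ * y⁻¹ := by rw [h1]
        _ = x * y * v * y⁻¹ * (y * x⁻¹) * v⁻¹ * y⁻¹ := by group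
        _ = x * y * v * y⁻¹ * (x⁻¹ * y) * v⁻¹ * y⁻¹ := by rw [h3]
        _ = x * (y * v * y⁻¹) * x⁻¹ * (y * v * y⁻¹)⁻¹ := by group
    | one =>
      rw [mul_one, mul_inv_cancel]
      exact Subgroup.one_mem _
    | mul a b _ _ ha hb =>
      have h1 : y * (a * b) * y⁻¹ = (y * a * y⁻¹) * (y * b * y⁻¹) := by group
      rw [h1]
      exact Subgroup.mul_mem _ ha hb
    | inv a _ ha =>
      have h1 : y * a⁻¹ * y⁻¹ = (y * a * y⁻¹)⁻¹ := by group
      rw [h1]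
      exact Subgroup.inv_mem _ ha
  intro u hu
  unfold UU at hu ⊢
  induction hu using Subgroup.closure_induction with
  | mem u hu =>
    obtain ⟨i, j, h, hu⟩ := hu
    exact Subgroup.subset_closure ⟨i, j, h, key i j h u hu⟩
  | one =>
    rw [mul_one, mul_inv_cancel]
    exact Subgroup.one_mem _
  | mul a b _ _ ha hb =>
    have h1 : y * (a * b) * y⁻¹ = (y * a * y⁻¹) * (y * b * y⁻¹) := by group
    rw [h1]
    exact Subgroup.mul_mem _ ha hb
  | inv a _ ha =>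
    have h1 : y * a⁻¹ * y⁻¹ = (y * a * y⁻¹)⁻¹ := by group
    rw [h1]
    exact Subgroup.inv_mem _ ha

omit [Finite k] in
private theorem conj_tv_ne {σ : Equiv.Perm (Fin n)} {w : SpecialLinearGroup (Fin n) k}
    (hw : MP σ w) {i j : Fin n} (h : i < j) :
    (w * tv h.ne 1 * w⁻¹).1 (σ⁻¹ i) (σ⁻¹ j) ≠ 0 := by
  rw [hw.inv.apply_mul, hw.mul_apply]
  have h1 : σ (σ⁻¹ i) = i := σ.apply_symm_apply i
  have h2 : (tv h.ne (1 : k)).1 i j = 1 := by
    rw [SpecialLinearGroup.transvection_coe, Matrix.add_apply, Matrix.one_apply_ne h.ne,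
      Matrix.single_apply_same, zero_add]
  have h3 := hw.ne (σ⁻¹ i)
  rw [h1] at h3 ⊢
  rw [h2, mul_one]
  exact mul_ne_zero h3 (hw.inv.ne j)

private theorem perm_eq_one {σ : Equiv.Perm (Fin n)} (h : ∀ i j : Fin n, i < j → σ⁻¹ i < σ⁻¹ j) :
    σ = 1 := by
  have hm : StrictMono (σ⁻¹ : Equiv.Perm (Fin n)) := fun i j hij => h i j hij
  have h1 : (⟨σ⁻¹, hm.le_iff_le⟩ : Fin n ≃o Fin n) = OrderIso.refl _ := Subsingleton.elim _ _
  have h2 : σ⁻¹ = 1 := by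
    ext i
    have h3 := congrArg (fun e : Fin n ≃o Fin n => ((e i : Fin n) : ℕ)) h1
    exact h3
  rwa [inv_eq_one] at h2

omit [Finite k] in
private theorem up_tri {σ : Equiv.Perm (Fin n)} {w g c : SpecialLinearGroup (Fin n) k}
    (hw : MP σ w) {i j : Fin n} (h : i < j) (hg : g ∈ UT n k)
    (hc : c ∈ Subgroup.center (SpecialLinearGroup (Fin n) k))
    (he : w * tv h.ne 1 * w⁻¹ = g * c) : σ⁻¹ i < σ⁻¹ j := by
  obtain ⟨r, -, hr⟩ := Matrix.SpecialLinearGroup.mem_center_iff.1 hc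
  rcases lt_trichotomy (σ⁻¹ i) (σ⁻¹ j) with h1 | h1 | h1
  · exact h1
  · exact absurd (σ⁻¹.injective h1) h.ne
  · exfalso
    apply conj_tv_ne hw h
    rw [he]
    change (g.1 * c.1) _ _ = 0
    have hr' : c.1 = Matrix.scalar (Fin n) r := hr.symm
    rw [hr', Matrix.scalar_apply, Matrix.mul_diagonal, (mem_UT.1 hg).2 _ _ h1, zero_mul]

theorem normU_psl (hn : 3 ≤ n) (hp : 5 ≤ p) (hq : p ∣ Nat.card k - 1)
    (hf : Function.Surjective f) (hc : f.ker ≤ Subgroup.center K) (hz : ¬ p ∣ Nat.card f.ker)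
    (hP : PD p f P) {y : K} (hy : y ∈ NN f) :
    (∀ u ∈ UU f P, y * u * y⁻¹ ∈ UU f P) ↔ y ∈ Pool.Agent.Helper81.TD.TT P (NN f) := by
  constructor
  · intro h
    obtain ⟨σ, w, hw, hl⟩ := hy
    have hs : ∀ i j : Fin n, i < j → σ⁻¹ i < σ⁻¹ j := by
      intro i j hij
      have h1 : tv hij.ne (1 : k) ∈ UT n k := Subgroup.subset_closure ⟨i, j, hij, 1, rfl⟩
      obtain ⟨u, hu, hlu⟩ := uu_up hn hp hq hf hc hP h1
      obtain ⟨g, hg, hlg⟩ := uu_down hP (h u hu)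
      obtain ⟨c, hcc, he⟩ := ((hl.mul hlu).mul hl.inv).center hlg
      exact up_tri hw hij hg hcc he
    have h1 : σ = 1 := perm_eq_one hs
    subst h1
    rw [TT_eq hp hq hz hP]
    exact ⟨w, mp_one_iff.1 hw, hl⟩
  · intro h
    have h1 : y ∈ DT f := by
      rw [← TT_eq hp hq hz hP]
      exact h
    obtain ⟨g, hg, hl⟩ := h1
    have h2 : y ∈ Subgroup.centralizer (P : Set K) := h.2
    exact torus_conj hg hl fun x hx => Subgroup.mem_centralizer_iff.1 h2 x hx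

end Pool.Agent.Helper68.TS
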