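import Pool.Agent.Helper68.TS.Defs
import Pool.Agent.Helper68.BR.PSyl

/-!
# TS-03: existence of `P` (MP_5ecade_al, project TD, block S)

Model: `exists_P` in Helper68/BR/PSyl.lean (there `TP` is a Sylow subgroup, here not). Let `T = (TP n k p).map mk` (a `p`-group, `TP_pgroup.map`),
`H = T.comap f`, and `Q` a Sylow `p`-subgroup of `↥H`; `P = Q.map H.subtype`. `P.map f = T`: let `t ∈ T`, `t = f y`, `y ∈ H`, `t ^ p ^ N = 1`. As `H / ker ≅ T` is
a `p`-group and `|ker|` is prime to `p`: either use `Sylow.mapSurjective` for the surjection `H → T` (the image is a Sylow subgroup of the `p`-group `T`, so all of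
`T`), or directly: `y` has order `p ^ a b` with `p ∤ b`; `y ^ e` with `e ≡ 1 mod p ^ N'`, `e ≡ 0 mod b` is a `p`-element of `H` with `f (y ^ e) = t ^ e = t`; and
ALTERNATIVE without Sylow: `P = {y | y ∈ H ∧ ∃ N, y ^ p ^ N = 1}` is a subgroup: for `a, b` in it the commutator `a b a⁻¹ b⁻¹` is in `f.ker` (`dg_comm`), so it is a
central `c` and `(a b)^m = a^m b^m c^(- m(m-1)/2)`; (with Sylow this is not needed). Then `down`, `up`, `comm`, `mon` are word for word as in `exists_P`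
(the private `eq_one_of_ker` has to be copied).
-/

namespace Pool.Agent.Helper68.TS

open Matrix Pool.Agent.Helper68.BR

variable {n : ℕ} {k : Type} [Field k] [Finite k] {K : Type} [Group K] [Finite K] {p : ℕ} [Fact p.Prime]
  {f : K →* ProjectiveSpecialLinearGroup (Fin n) k}

omit [Finite k] [Finite K] in
private theorem pex_eq_one_of_ker (hz : ¬ p ∣ Nat.card f.ker) {c : K} (hc : c ∈ f.ker) {N : ℕ}
    (hN : c ^ p ^ N = 1) : c = 1 := by
  have hp : p.Prime := Fact.out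
  have h1 : orderOf c ∣ p ^ N := orderOf_dvd_of_pow_eq_one hN
  have h2 : orderOf c ∣ Nat.card f.ker := by
    have h3 : orderOf (⟨c, hc⟩ : f.ker) ∣ Nat.card f.ker := orderOf_dvd_natCard _
    rwa [Subgroup.orderOf_mk] at h3
  have h4 : Nat.Coprime (p ^ N) (Nat.card f.ker) :=
    Nat.Coprime.pow_left N ((Nat.Prime.coprime_iff_not_dvd hp).2 hz)
  have h5 : orderOf c = 1 := Nat.dvd_one.1 (h4 ▸ Nat.dvd_gcd h1 h2)
  exact orderOf_eq_one_iff.1 h5

private theorem pex_lift {G G' : Type} [Group G] [Group G'] [Finite G] {φ : G →* G'}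
    (hφ : Function.Surjective φ) {T : Subgroup G'} (hT : IsPGroup p T) :
    ∃ P : Subgroup G, IsPGroup p P ∧ P.map φ = T := by
  have hs : Function.Surjective (φ.subgroupComap T) :=
    MonoidHom.subgroupComap_surjective_of_surjective φ T hφ
  obtain ⟨Q⟩ : Nonempty (Sylow p (T.comap φ)) := Sylow.nonempty
  have h1 : ((Q.mapSurjective hs : Sylow p T) : Subgroup T) = ⊤ :=
    ((Q.mapSurjective hs).is_maximal' (hT.to_subgroup ⊤) le_top).symm
  rw [Sylow.coe_mapSurjective] at h1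
  refine ⟨(Q : Subgroup (T.comap φ)).map (T.comap φ).subtype, Q.2.map _, ?_⟩
  apply le_antisymm
  · exact Subgroup.map_le_iff_le_comap.mpr (Subgroup.map_subtype_le Q.1)
  · intro t ht
    have h2 : (⟨t, ht⟩ : T) ∈ (Q : Subgroup (T.comap φ)).map (φ.subgroupComap T) := by
      rw [h1]
      exact Subgroup.mem_top _
    obtain ⟨q, hq, hqt⟩ := Subgroup.mem_map.1 h2
    refine Subgroup.mem_map.2 ⟨(q : G), Subgroup.mem_map.2 ⟨q, hq, rfl⟩, ?_⟩
    exact congrArg Subtype.val hqt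

theorem exists_PD (hf : Function.Surjective f) (hc : f.ker ≤ Subgroup.center K)
    (hz : ¬ p ∣ Nat.card f.ker) : ∃ P : Subgroup K, PD p f P := by
  have hT1 : IsPGroup p ((TP n k p).map (QuotientGroup.mk'
      (Subgroup.center (SpecialLinearGroup (Fin n) k)))) := TP_pgroup.map _
  obtain ⟨P, hPp, hmap⟩ := pex_lift hf hT1
  have hdown : ∀ x ∈ P, ∃ z ∈ TP n k p, Lf f x z := by
    intro x hx
    have h1 : f x ∈ P.map f := Subgroup.mem_map_of_mem f hx
    rw [hmap] at h1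
    obtain ⟨z, hz1, hz2⟩ := Subgroup.mem_map.1 h1
    exact ⟨z, hz1, hz2.symm⟩
  have hup : ∀ z ∈ TP n k p, ∃ x ∈ P, Lf f x z := by
    intro z hz1
    have h1 : QuotientGroup.mk' (Subgroup.center (SpecialLinearGroup (Fin n) k)) z ∈
        (TP n k p).map (QuotientGroup.mk' (Subgroup.center (SpecialLinearGroup (Fin n) k))) :=
      Subgroup.mem_map_of_mem _ hz1
    rw [← hmap] at h1
    obtain ⟨x, hx1, hx2⟩ := Subgroup.mem_map.1 h1
    exact ⟨x, hx1, hx2⟩
  have hpow : ∀ x ∈ P, ∃ N : ℕ, x ^ p ^ N = 1 := by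
    intro x hx
    obtain ⟨N, hN⟩ := hPp ⟨x, hx⟩
    exact ⟨N, congrArg Subtype.val hN⟩
  refine ⟨P, ⟨hPp, ?_, hdown, hup, ?_⟩⟩
  · intro a ha b hb
    obtain ⟨z, hz1, hza⟩ := hdown a ha
    obtain ⟨w, hw1, hwb⟩ := hdown b hb
    have hcP : a * b * a⁻¹ * b⁻¹ ∈ P :=
      mul_mem (mul_mem (mul_mem ha hb) (inv_mem ha)) (inv_mem hb)
    have hL : Lf f (a * b * a⁻¹ * b⁻¹) (z * w * z⁻¹ * w⁻¹) :=
      ((hza.mul hwb).mul hza.inv).mul hwb.inv
    have h1 : z * w * z⁻¹ * w⁻¹ = 1 := by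
      rw [dg_comm hz1.1 hw1.1]
      group
    rw [h1] at hL
    have hk : a * b * a⁻¹ * b⁻¹ ∈ f.ker := lf_one.1 hL
    obtain ⟨N, hN⟩ := hpow _ hcP
    have h2 := pex_eq_one_of_ker hz hk hN
    have h3 : a * b * a⁻¹ = b := by
      have := mul_inv_eq_one.1 h2
      exact this
    exact mul_inv_eq_iff_eq_mul.1 h3
  · intro m g hg hm
    apply Subgroup.mem_normalizer_fintype
    intro x hx
    obtain ⟨z, hz1, hzx⟩ := hdown x hx
    have hL : Lf f (m * x * m⁻¹) (g * z * g⁻¹) := (hm.mul hzx).mul hm.inv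
    obtain ⟨x', hx'1, hx'2⟩ := hup _ (mon_TP hg hz1)
    obtain ⟨c, hcker, hceq⟩ := hL.ker hx'2
    have hcomm : Commute x' c := by
      have := Subgroup.mem_center_iff.1 (hc hcker) x'
      exact this
    obtain ⟨N, hN⟩ := hpow x hx
    obtain ⟨M, hM⟩ := hpow x' hx'1
    have h1 : (m * x * m⁻¹) ^ p ^ (N + M) = 1 := by
      rw [conj_pow, pow_add, pow_mul, hN, one_pow, mul_one, mul_inv_cancel]
    have h2 : x' ^ p ^ (N + M) = 1 := by
      rw [pow_add, mul_comm (p ^ N), pow_mul, hM, one_pow]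
    have h3 : c ^ p ^ (N + M) = 1 := by
      rw [hceq, hcomm.mul_pow, h2, one_mul] at h1
      exact h1
    have h4 : c = 1 := pex_eq_one_of_ker hz hcker h3
    rw [h4, mul_one] at hceq
    rw [hceq]
    exact hx'1

end Pool.Agent.Helper68.TS
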