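import Pool.Agent.Helper68.TS.Defs

/-!
# TS-01: diagonal matrices of order `p` with prescribed entries (MP_5ecade_al, project TD, block S)

`exists_zeta`: `kˣ` is cyclic (finite) of order `|k| - 1`, divisible by `p`: Cauchy (`exists_prime_orderOf_dvd_card'` or as in
`exists_u` in Helper68/BR/Wt.lean, which you can copy) gives `u` of order `p ≥ 5`; so `u ^ j = 1` iff `p ∣ j`, and `2, 3, 4, 6` are not
divisible by the prime `p ≥ 5` (`p ∣ 6` gives `p = 2` or `p = 3`).
`two_wt`: copy `mk_wt` of Helper68/BR/Wt.lean (private there: the diagonal matrix with the entries `u ^ e l`, determinant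
`u ^ ∑ e l = 1`, of order dividing `p`), applied to `e = Pi.single a 1 - Pi.single b 1` (or with `if`s).
-/

namespace Pool.Agent.Helper68.TS

open Matrix Pool.Agent.Helper68.BR

variable {n : ℕ} {k : Type} [Field k] [Finite k] {p : ℕ} [Fact p.Prime]

omit [Finite k] [Fact p.Prime] in
private theorem Wt2_mk_wt (u : kˣ) (hu : u ^ p = 1) (e : Fin n → ℤ) (he : ∑ l, e l = 0) :
    ∃ z ∈ TP n k p, ∀ l, z.1 l l = ((u ^ (e l) : kˣ) : k) := by
  classical
  have hdet : (Matrix.diagonal fun l => ((u ^ (e l) : kˣ) : k)).det = 1 := by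
    rw [Matrix.det_diagonal]
    have h1 : ((∏ l, u ^ (e l) : kˣ) : k) = ∏ l, ((u ^ (e l) : kˣ) : k) := by
      rw [Units.coe_prod]
    have h2 : ∀ s : Finset (Fin n), ∏ l ∈ s, u ^ (e l) = u ^ (∑ l ∈ s, e l) := by
      intro s
      induction s using Finset.induction_on with
      | empty => simp
      | insert x s hx ih =>
        rw [Finset.prod_insert hx, Finset.sum_insert hx, ih, ← _root_.zpow_add]
    rw [← h1, h2, he, zpow_zero, Units.val_one]
  let z : SpecialLinearGroup (Fin n) k := ⟨_, hdet⟩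
  refine ⟨z, ⟨fun r s hrs => Matrix.diagonal_apply_ne _ hrs, 1, ?_⟩, fun l => ?_⟩
  · apply Subtype.ext
    rw [pow_one]
    change (z ^ p).1 = (1 : Matrix (Fin n) (Fin n) k)
    rw [show (z ^ p).1 = z.1 ^ p from Matrix.SpecialLinearGroup.coe_pow z p]
    change (Matrix.diagonal fun l => ((u ^ (e l) : kˣ) : k)) ^ p = 1
    rw [Matrix.diagonal_pow, ← Matrix.diagonal_one]
    congr 1
    funext l
    rw [Pi.pow_apply, ← Units.val_pow_eq_pow_val, ← zpow_natCast, ← _root_.zpow_mul, mul_comm, _root_.zpow_mul,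
      zpow_natCast, hu, _root_.one_zpow, Units.val_one]
  · exact Matrix.diagonal_apply_eq _ _

theorem exists_zeta (hp : 5 ≤ p) (hq : p ∣ Nat.card k - 1) :
    ∃ u : kˣ, u ^ p = 1 ∧ u ^ 2 ≠ 1 ∧ u ^ 3 ≠ 1 ∧ u ^ 4 ≠ 1 ∧ u ^ 6 ≠ 1 := by
  classical
  have : Fintype k := Fintype.ofFinite k
  have hpp : p.Prime := Fact.out
  have h1 : p ∣ Nat.card kˣ := by
    rw [Nat.card_units]
    exact hq
  obtain ⟨u, hu⟩ := exists_prime_orderOf_dvd_card' p h1
  have h2 : ¬ p ∣ 2 := fun h => by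
    have := Nat.le_of_dvd (by norm_num) h
    omega
  have h3 : ¬ p ∣ 3 := fun h => by
    have := Nat.le_of_dvd (by norm_num) h
    omega
  have hd : ∀ m, ¬ p ∣ m → u ^ m ≠ 1 := by
    intro m hm h
    apply hm
    rw [← hu]
    exact orderOf_dvd_of_pow_eq_one h
  refine ⟨u, by rw [← hu, pow_orderOf_eq_one], hd 2 h2, hd 3 h3, hd 4 ?_, hd 6 ?_⟩
  · intro h
    rw [show 4 = 2 * 2 by norm_num] at h
    rcases (hpp.dvd_mul).1 h with h | h
    · exact h2 h
    · exact h2 h
  · intro h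
    rw [show 6 = 2 * 3 by norm_num] at h
    rcases (hpp.dvd_mul).1 h with h | h
    · exact h2 h
    · exact h3 h

theorem two_wt {u : kˣ} (hu : u ^ p = 1) {a b : Fin n} (hab : a ≠ b) :
    ∃ z ∈ TP n k p, z.1 a a = (u : k) ∧ z.1 b b = ((u⁻¹ : kˣ) : k) ∧
      ∀ l, l ≠ a → l ≠ b → z.1 l l = 1 := by
  obtain ⟨z, hz, hzl⟩ := Wt2_mk_wt (n := n) u hu
    (fun l => (if l = a then 1 else 0) + (if l = b then -1 else 0)) (by
      rw [Finset.sum_add_distrib]
      simp)
  refine ⟨z, hz, ?_, ?_, fun l h1 h2 => ?_⟩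
  · rw [hzl]
    simp only [if_true, if_neg hab, add_zero, zpow_one]
  · rw [hzl]
    simp only [if_true, if_neg hab.symm, zero_add, _root_.zpow_neg_one]
  · rw [hzl]
    simp only [if_neg h1, if_neg h2, add_zero, zpow_zero, Units.val_one]

end Pool.Agent.Helper68.TS
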