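import Pool.Agent.Helper68.TS.PMax
import Pool.Agent.Helper68.TS.Wt2

/-!
# TS-10: quadratic action (MP_5ecade_al, project TD, block S)

`x` lifts `g`, `MP σ g`. `mp_pow`: `MP (σ ^ m) (g ^ m)` (induction, `MP.mul`). `x ^ p ^ N = 1` gives `g ^ p ^ N` central (`Lf.center` with `1`), a scalar matrix, so `MP 1 (g ^ p ^ N)`, `σ ^ p ^ N = 1` (`MP.unique`).
Suppose `σ ≠ 1`, `σ a ≠ a`. Then also `σ (σ a) ≠ a` (`p ^ N` is odd: `p ^ N = 2 m + 1`, and `σ ^ (p ^ N) = 1`). For `z ∈ TP` with lift `y ∈ P`: `⁅y, x⁆ = y x y⁻¹ x⁻¹` lifts `z (g z⁻¹ g⁻¹)`, the diagonal matrix with the entries `z i / z (σ i)` (`(g z⁻¹ g⁻¹) i i = (z (σ i))⁻¹`: `MP.mul_apply`, `MP.apply_mul`), and `⁅⁅y, x⁆, x⁆`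
lifts the diagonal matrix with the entries `z i z (σ² i) / z (σ i) ^ 2`; it is `1`, so this matrix is central, a scalar (`lf_one`, `Lf.center`). Take `u` of `exists_zeta` and `z` of `two_wt` for the places `σ² a =: b` and
`c := σ³ a`: `z b = u`, `z c = u⁻¹`, all others `1`. Entry at `i = b = σ² a`: `z b z (σ² b) / z (σ b) ^ 2 = u * z(σ⁴ a) / u⁻² = u ^ 3` (`σ⁴ a ≠ b, c`). Entry at `i = σ a`: `z (σ a) z (σ³ a) / z (σ² a) ^ 2 = u⁻¹ u⁻² = u⁻³`. So `u ^ 6 = 1`, contradiction.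
(`σ⁴ a ≠ σ² a`, `σ⁴ a ≠ σ³ a`, `σ a ≠ b, c`, `b ≠ c` all follow from `σ a ≠ a`, `σ² a ≠ a` and injectivity.) So `σ = 1`, `g ∈ DG`, `x ∈ DT`, `x ∈ P` by `mem_P_of`.
-/

namespace Pool.Agent.Helper68.TS

open Matrix Pool.Agent.Helper68.BR

variable {n : ℕ} {k : Type} [Field k] [Finite k] {K : Type} [Group K] [Finite K] {p : ℕ} [Fact p.Prime]
  {f : K →* ProjectiveSpecialLinearGroup (Fin n) k} {P : Subgroup K}

private theorem mp_pow {σ : Equiv.Perm (Fin n)} {g : SpecialLinearGroup (Fin n) k} (h : MP σ g)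
    (m : ℕ) : MP (σ ^ m) (g ^ m) := by
  induction m with
  | zero =>
    rw [pow_zero, pow_zero]
    exact mp_one_iff.2 (Subgroup.one_mem _)
  | succ m ih =>
    rw [pow_succ g m, pow_succ' σ m]
    exact ih.mul h

private theorem lf_pow {x : K} {g : SpecialLinearGroup (Fin n) k} (h : Lf f x g) (m : ℕ) :
    Lf f (x ^ m) (g ^ m) := by
  induction m with
  | zero =>
    rw [pow_zero, pow_zero]
    exact lf_one.2 (Subgroup.one_mem _)
  | succ m ih =>
    rw [pow_succ, pow_succ]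
    exact ih.mul h

private theorem center_scalar {c : SpecialLinearGroup (Fin n) k}
    (hc : c ∈ Subgroup.center (SpecialLinearGroup (Fin n) k)) :
    ∃ r : k, ∀ i j, c.1 i j = if i = j then r else 0 := by
  obtain ⟨r, _, hr⟩ := Matrix.SpecialLinearGroup.mem_center_iff.1 hc
  refine ⟨r, fun i j => ?_⟩
  rw [← hr]
  by_cases hij : i = j
  · subst hij
    simp
  · rw [if_neg hij, Matrix.scalar_apply, Matrix.diagonal_apply_ne _ hij]

open scoped commutatorElement in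
private theorem dcomm {σ : Equiv.Perm (Fin n)} {g w : SpecialLinearGroup (Fin n) k} (h : MP σ g)
    (hw : w ∈ DG n k) : ⁅w, g⁆ ∈ DG n k ∧
      ∀ i, ⁅w, g⁆.1 i i = w.1 i i * (w.1 (σ i) (σ i))⁻¹ := by
  have hw1 : MP 1 w := mp_one_iff.2 hw
  have hwi : ∀ i, w.1 i i ≠ 0 := fun i => hw1.ne i
  have hinv : ∀ i, (w⁻¹).1 i i = (w.1 i i)⁻¹ := by
    intro i
    have h1 : (w * w⁻¹).1 i i = w.1 i i * (w⁻¹).1 i i := hw1.mul_apply w⁻¹ i i
    rw [mul_inv_cancel] at h1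
    have h2 : (1 : SpecialLinearGroup (Fin n) k).1 i i = 1 := Matrix.one_apply_eq i
    rw [h2] at h1
    exact eq_inv_of_mul_eq_one_right h1.symm
  have hmem : MP 1 ⁅w, g⁆ := by
    have h1 := ((hw1.mul h).mul hw1.inv).mul h.inv
    have h2 : σ⁻¹ * ((1 : Equiv.Perm (Fin n))⁻¹ * (σ * 1)) = 1 := by group
    rw [h2] at h1
    rw [commutatorElement_def]
    exact h1
  refine ⟨mp_one_iff.1 hmem, fun i => ?_⟩
  have h3 : (⁅w, g⁆ * g).1 i (σ i) = ⁅w, g⁆.1 i i * g.1 i (σ i) := h.apply_mul _ i i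
  have h4 : ⁅w, g⁆ * g = w * g * w⁻¹ := by rw [commutatorElement_def]; group
  have hwg : MP (σ * 1) (w * g) := hw1.mul h
  rw [mul_one] at hwg
  have h5 : (w * g * w⁻¹).1 i (σ i) = (w * g).1 i (σ i) * (w⁻¹).1 (σ i) (σ i) := hwg.mul_apply _ i (σ i)
  have h6 : (w * g).1 i (σ i) = w.1 i i * g.1 i (σ i) := hw1.mul_apply g i (σ i)
  rw [h4, h5, h6, hinv] at h3
  have h7 := h.ne i
  apply mul_right_cancel₀ h7
  rw [← h3]
  ring

open scoped commutatorElement in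
private theorem lf_comm {x y : K} {g w : SpecialLinearGroup (Fin n) k} (h : Lf f x g) (h' : Lf f y w) :
    Lf f ⁅y, x⁆ ⁅w, g⁆ := by
  rw [commutatorElement_def, commutatorElement_def]
  exact ((h'.mul h).mul h'.inv).mul h.inv

open scoped commutatorElement in
theorem quad_psl (hp : 5 ≤ p) (hq : p ∣ Nat.card k - 1)
    (hc : f.ker ≤ Subgroup.center K) (hz : ¬ p ∣ Nat.card f.ker)
    (hP : PD p f P) {x : K} (hx : x ∈ NN f) {N : ℕ} (hN : x ^ p ^ N = 1)
    (h : ∀ y ∈ P, ⁅⁅y, x⁆, x⁆ = 1) : x ∈ P := by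
  obtain ⟨σ, g, hg, hxg⟩ := hx
  -- the permutation has odd order
  have hσ : σ ^ p ^ N = 1 := by
    have h1 := lf_pow hxg (p ^ N)
    rw [hN] at h1
    obtain ⟨c, hcc, he⟩ := h1.center (lf_one.2 (Subgroup.one_mem _))
    rw [one_mul] at he
    obtain ⟨r, hr⟩ := center_scalar hcc
    have h2 : MP 1 (g ^ p ^ N) := by
      rw [he]
      intro i j hij
      rw [hr, if_neg (fun hh => hij hh.symm)]
    exact (mp_pow hg _).unique h2
  by_cases hσ1 : σ = 1
  · rw [hσ1] at hg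
    exact mem_P_of hc hz hP ⟨g, mp_one_iff.1 hg, hxg⟩ hN
  exfalso
  obtain ⟨a, ha⟩ : ∃ a, σ a ≠ a := by
    by_contra hcon
    push Not at hcon
    exact hσ1 (Equiv.ext hcon)
  have ha2 : σ (σ a) ≠ a := by
    intro h2
    have hodd : Odd (p ^ N) := by
      have hpp : p.Prime := Fact.out
      exact (hpp.odd_of_ne_two (by omega)).pow
    obtain ⟨m, hm⟩ := hodd
    have h3 : ∀ m : ℕ, (σ ^ (2 * m)) a = a := by
      intro m
      induction m with
      | zero => simp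
      | succ m ih =>
        rw [Nat.mul_succ, pow_add, Equiv.Perm.mul_apply, pow_two, Equiv.Perm.mul_apply, h2, ih]
    have h4 : (σ ^ (p ^ N)) a = a := by rw [hσ]; rfl
    rw [hm, pow_succ', Equiv.Perm.mul_apply, h3] at h4
    exact ha h4
  obtain ⟨u, hup, _, _, _, hu6⟩ := exists_zeta (k := k) hp hq
  have hinj := σ.injective
  have hbc : σ (σ a) ≠ σ (σ (σ a)) := fun hh => ha (hinj (hinj hh)).symm
  obtain ⟨z, hzT, hzb, hzc, hzo⟩ := two_wt (n := n) (p := p) hup hbc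
  obtain ⟨y, hyP, hyz⟩ := hP.up z hzT
  have h1 := h y hyP
  obtain ⟨hd1, he1⟩ := dcomm hg hzT.1
  obtain ⟨hd2, he2⟩ := dcomm hg hd1
  have h2 := lf_comm hxg (lf_comm hxg hyz)
  rw [h1] at h2
  obtain ⟨c, hcc, he⟩ := h2.center (lf_one.2 (Subgroup.one_mem _))
  rw [one_mul] at he
  obtain ⟨r, hr⟩ := center_scalar hcc
  have key : ∀ i, z.1 i i * (z.1 (σ i) (σ i))⁻¹ * (z.1 (σ i) (σ i) * (z.1 (σ (σ i)) (σ (σ i)))⁻¹)⁻¹ = r := by
    intro i
    have h3 := he2 i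
    rw [he, hr, if_pos rfl, he1, he1] at h3
    exact h3.symm
  have k1 := key (σ (σ a))
  have k2 := key (σ a)
  have e1 : z.1 (σ (σ (σ (σ a)))) (σ (σ (σ (σ a)))) = 1 := by
    apply hzo
    · intro hh
      exact ha2 (hinj (hinj hh))
    · intro hh
      exact ha (hinj (hinj (hinj hh)))
  have e2 : z.1 (σ a) (σ a) = 1 := by
    apply hzo
    · intro hh
      exact ha (hinj hh).symm
    · intro hh
      exact ha2 (hinj hh).symm
  rw [hzb, hzc, e1] at k1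
  rw [e2, hzb, hzc] at k2
  have hu0 : (u : k) ≠ 0 := u.ne_zero
  have h5 : (u : k) ^ 6 = 1 := by
    have h6 : (((u⁻¹ : kˣ) : k)) = (u : k)⁻¹ := by simp
    rw [h6] at k1 k2
    have h7 := k1.trans k2.symm
    field_simp at h7
    first
      | exact h7
      | linear_combination h7
  apply hu6
  apply Units.ext
  push_cast
  exact h5

end Pool.Agent.Helper68.TS
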