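import Pool.Agent.Helper68.BR.CovPSL
import Pool.Agent.Helper68.TS.PEx
import Pool.Agent.Helper68.TS.NmP
import Pool.Agent.Helper68.TS.NormU
import Pool.Agent.Helper68.TS.GenN
import Pool.Agent.Helper68.TS.Quad
import Pool.Agent.Helper68.TS.FratRel

/-!
# TS-12: central extensions of `PSL_n(k)` have a split BN-pair (MP_5ecade_al, project TD, block S)
-/

namespace Pool.Agent.Helper68.TS

open Matrix Pool.Agent.Helper68.BR Pool.Agent.Helper81.TD
open scoped commutatorElement

section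

variable {n : ℕ} {k : Type} [Field k] [Finite k] {K : Type} [Group K] [Finite K] {p : ℕ}
  [Fact p.Prime] {f : K →* ProjectiveSpecialLinearGroup (Fin n) k} {P : Subgroup K}

/-- fixed points -/
theorem fix_psl (hn : 3 ≤ n) (hp : 5 ≤ p) (hq : p ∣ Nat.card k - 1)
    (hf : Function.Surjective f) (hc : f.ker ≤ Subgroup.center K) (hP : PD p f P) {u : K}
    (hu : u ∈ UU f P) (hcomm : ∀ x ∈ P, x * u = u * x) : u = 1 := by
  obtain ⟨g, hg, hug⟩ := uu_down hP hu
  have hoff : ∀ i j, i ≠ j → g.1 i j = 0 := by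
    intro i j hij
    obtain ⟨z, hz, hne⟩ := exists_wt' (n := n) (k := k) hp hq hij
    obtain ⟨x, hx, hxz⟩ := hP.up z hz
    have h1 : Lf f (u * x) (g * z) := hug.mul hxz
    have h2 : Lf f (u * x) (z * g) := by
      rw [← hcomm x hx]
      exact hxz.mul hug
    obtain ⟨c, hcc, he⟩ := h1.center h2
    exact dg_of_comm hz.1 hg hcc he i j hne
  have hg1 : g = 1 := by
    apply Subtype.ext
    ext i j
    change g.1 i j = (1 : Matrix (Fin n) (Fin n) k) i j
    by_cases hij : i = j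
    · subst hij
      rw [(mem_UT.1 hg).1, Matrix.one_apply_eq]
    · rw [hoff i j hij, Matrix.one_apply_ne hij]
  rw [hg1] at hug
  exact uu_ker hn hp hq hf hc hP hu (lf_one.1 hug)

/-- the Bruhat decomposition -/
theorem cover_psl (hn : 3 ≤ n) (hp : 5 ≤ p) (hq : p ∣ Nat.card k - 1)
    (hf : Function.Surjective f) (hc : f.ker ≤ Subgroup.center K) (hP : PD p f P) (y : K) :
    ∃ m ∈ NN f, DC (UU f P) m y := by
  obtain ⟨g, hg⟩ := exists_lf' f y
  obtain ⟨v, hv, m, ⟨σ, hm⟩, v', hv', he⟩ := bruhat g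
  obtain ⟨u, hu, huv⟩ := uu_up hn hp hq hf hc hP hv
  obtain ⟨u', hu', huv'⟩ := uu_up hn hp hq hf hc hP hv'
  have h1 : Lf f (u⁻¹ * y * u'⁻¹) (v⁻¹ * g * v'⁻¹) := (huv.inv.mul hg).mul huv'.inv
  have h2 : v⁻¹ * g * v'⁻¹ = m := by
    rw [he]
    group
  rw [h2] at h1
  exact ⟨u⁻¹ * y * u'⁻¹, ⟨σ, m, hm, h1⟩, u, hu, u', hu', by group⟩

theorem memW {w : K} : w ∈ ((UT n k).map (QuotientGroup.mk'
    (Subgroup.center (SpecialLinearGroup (Fin n) k)))).comap f ↔ ∃ g ∈ UT n k, Lf f w g := by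
  constructor
  · rintro ⟨g, hg, h⟩
    exact ⟨g, hg, h.symm⟩
  · rintro ⟨g, hg, h⟩
    exact ⟨g, hg, h.symm⟩

/-- `U = [W, P]` -/
theorem uu_eq (hn : 3 ≤ n) (hp : 5 ≤ p) (hq : p ∣ Nat.card k - 1)
    (hf : Function.Surjective f) (hc : f.ker ≤ Subgroup.center K) (hP : PD p f P) :
    UU f P = ⁅((UT n k).map (QuotientGroup.mk'
      (Subgroup.center (SpecialLinearGroup (Fin n) k)))).comap f, P⁆ := by
  refine le_antisymm ?_ ?_
  · refine (Subgroup.closure_le _).2 ?_
    rintro y ⟨i, j, h, hy⟩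
    have hXX : XX f P h.ne ≤ ⁅((UT n k).map (QuotientGroup.mk'
        (Subgroup.center (SpecialLinearGroup (Fin n) k)))).comap f, P⁆ := by
      refine (Subgroup.closure_le _).2 ?_
      rintro y ⟨x, hx, v, hv, rfl⟩
      obtain ⟨s, hs⟩ := hv
      have hvW : v ∈ ((UT n k).map (QuotientGroup.mk'
          (Subgroup.center (SpecialLinearGroup (Fin n) k)))).comap f :=
        memW.2 ⟨tv h.ne s, Subgroup.subset_closure ⟨i, j, h, s, rfl⟩, hs⟩
      have h1 := Subgroup.commutator_mem_commutator hvW hx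
      have h2 := Subgroup.inv_mem _ h1
      have h3 : (⁅v, x⁆)⁻¹ = x * v * x⁻¹ * v⁻¹ := by
        rw [commutatorElement_def]
        group
      rw [h3] at h2
      exact h2
    exact hXX hy
  · refine Subgroup.commutator_le.2 ?_
    intro w hw x hx
    obtain ⟨g, hg, hwg⟩ := memW.1 hw
    obtain ⟨u, hu, hug⟩ := uu_up hn hp hq hf hc hP hg
    obtain ⟨c, hck, hwc⟩ := hwg.ker hug
    have hcx : x * c = c * x := Subgroup.mem_center_iff.1 (hc hck) x
    have h1 : ⁅w, x⁆ = u * (x * u⁻¹ * x⁻¹) := by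
      rw [commutatorElement_def, hwc, _root_.mul_inv_rev]
      calc u * c * x * (c⁻¹ * u⁻¹) * x⁻¹ = u * (c * x) * c⁻¹ * u⁻¹ * x⁻¹ := by group
        _ = u * (x * c) * c⁻¹ * u⁻¹ * x⁻¹ := by rw [hcx]
        _ = u * (x * u⁻¹ * x⁻¹) := by group
    rw [h1]
    exact Subgroup.mul_mem _ hu (uu_conj hn hp hq hf hc hP hx (Subgroup.inv_mem _ hu))

theorem bn_of_PD (hn : 3 ≤ n) (hp : 5 ≤ p) (hq : p ∣ Nat.card k - 1)
    (hf : Function.Surjective f) (hker : f.ker = Subgroup.center K)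
    (hz : ¬ p ∣ Nat.card f.ker) (hP : PD p f P) : BN p P (UU f P) (NN f) := by
  have hc : f.ker ≤ Subgroup.center K := hker.le
  have hnorm : ∀ y ∈ NN f, y ∈ Nm P := fun y hy => by
    obtain ⟨σ, g, hg, hyg⟩ := hy
    exact hP.mon y g hg.isMon hyg
  refine
    { pgroup := hP.pgroup
      comm := hP.comm
      le := fun x hx => ?_
      norm := fun y hy x hx => (Subgroup.mem_normalizer_iff.1 (hnorm y hy) x).1 hx
      normU := fun y hy => normU_psl hn hp hq hf hc hz hP hy
      fix := fun u hu hcomm => fix_psl hn hp hq hf hc hP hu hcomm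
      cover := cover_psl hn hp hq hf hc hP
      gen := fun y hy => gen_psl hn hp hq hf hc hz hP hy
      quad := fun x hx hN h => by
        obtain ⟨N, hN⟩ := hN
        exact quad_psl hp hq hc hz hP hx hN h
      aut := fun α hα => ?_ }
  · obtain ⟨z, hz1, hxz⟩ := hP.down x hx
    exact ⟨1, z, mp_one_iff.2 hz1.1, hxz⟩
  · obtain ⟨r, hr⟩ := CharP.exists k
    have : Fintype k := Fintype.ofFinite k
    have : Fact r.Prime := ⟨CharP.char_is_prime k r⟩
    obtain ⟨W, hW⟩ : ∃ W : Subgroup K, W = ((UT n k).map (QuotientGroup.mk'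
      (Subgroup.center (SpecialLinearGroup (Fin n) k)))).comap f := ⟨_, rfl⟩
    have hPW : ∀ x ∈ P, ∀ w ∈ W, x * w * x⁻¹ ∈ W := by
      intro x hx w hw
      rw [hW] at hw ⊢
      obtain ⟨g, hg, hwg⟩ := memW.1 hw
      obtain ⟨z, hz1, hxz⟩ := hP.down x hx
      exact memW.2 ⟨z * g * z⁻¹, dg_UT hz1.1 hg, (hxz.mul hwg).mul hxz.inv⟩
    have hZ : Subgroup.center K ≤ W := by
      intro c hcc
      rw [← hker] at hcc
      rw [hW]
      exact memW.2 ⟨1, Subgroup.one_mem _, lf_one.2 hcc⟩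
    have hU : UU f P = ⁅W, P⁆ := by
      rw [hW]
      exact uu_eq hn hp hq hf hc hP
    have hPi : ¬ p ∣ P.relIndex (Nm W) := by
      refine sylow_of_max hP.pgroup ?_ ?_
      · intro x hx
        rw [Subgroup.mem_normalizer_iff]
        intro w
        refine ⟨fun hw => hPW x hx w hw, fun hw => ?_⟩
        have h1 := hPW x⁻¹ (P.inv_mem hx) _ hw
        have e : x⁻¹ * (x * w * x⁻¹) * x⁻¹⁻¹ = w := by group
        rwa [e] at h1
      · rintro x hxW hxP ⟨N, hN⟩
        have hxN : x ∈ NN f := nm_le hp hq hP hxP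
        have h1 : x ∈ TT P (NN f) := by
          refine (normU_psl hn hp hq hf hc hz hP hxN).1 fun u hu => ?_
          rw [hU] at hu ⊢
          have h2 : (MulAut.conj x) u ∈ (⁅W, P⁆).map (MulAut.conj x).toMonoidHom :=
            Subgroup.mem_map_of_mem _ hu
          rw [Subgroup.map_commutator] at h2
          have h3 : ∀ H : Subgroup K, x ∈ Nm H → H.map (MulAut.conj x).toMonoidHom ≤ H := by
            rintro H hx _ ⟨y, hy, rfl⟩
            exact (Subgroup.mem_normalizer_iff.1 hx y).1 hy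
          exact Subgroup.commutator_mono (h3 W hxW) (h3 P hxP) h2
        rw [TT_eq hp hq hz hP] at h1
        exact mem_P_of hc hz hP h1 hN
    have hF : Frat P (UU f P) := by
      refine frat_rel (r := r) (W := W) hP.pgroup hPi hZ ?_ ?_ hPW hU
      · intro w hw
        rw [hW] at hw
        obtain ⟨g, hg, hwg⟩ := memW.1 hw
        obtain ⟨N, hN⟩ := UT_pgroup (n := n) (k := k) (r := r) ⟨g, hg⟩
        have hN' : g ^ r ^ N = 1 := congrArg Subtype.val hN
        refine ⟨N, ?_⟩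
        rw [← hker, MonoidHom.mem_ker, map_pow]
        have h1 : f w = QuotientGroup.mk g := hwg
        rw [h1, ← QuotientGroup.mk_pow, hN']
        rfl
      · rw [hW, Subgroup.index_comap_of_surjective _ hf]
        intro h
        exact UT_index (n := n) (k := k) (r := r) (by omega)
          (h.trans (Subgroup.index_map_dvd _ (QuotientGroup.mk'_surjective _)))
    obtain ⟨y, hy, h⟩ := hF α hα
    exact ⟨y, nm_le hp hq hP hy, h⟩

end

theorem bn_of_psl {n : ℕ} {k : Type} [Field k] [Finite k] {K : Type} [Group K] [Finite K] {p : ℕ}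
    [Fact p.Prime] (hn : 3 ≤ n) (hp : 5 ≤ p) (hq : p ∣ Nat.card k - 1)
    (hz : ¬ p ∣ Nat.card (Subgroup.center K))
    (e : (K ⧸ Subgroup.center K) ≃* Matrix.ProjectiveSpecialLinearGroup (Fin n) k) :
    ∃ P U N : Subgroup K, BN p P U N := by
  obtain ⟨f, hfdef⟩ : ∃ f : K →* ProjectiveSpecialLinearGroup (Fin n) k,
    f = e.toMonoidHom.comp (QuotientGroup.mk' (Subgroup.center K)) := ⟨_, rfl⟩
  have hf : Function.Surjective f := by
    rw [hfdef]
    exact e.surjective.comp (QuotientGroup.mk'_surjective _)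
  have hker : f.ker = Subgroup.center K := by
    ext x
    rw [MonoidHom.mem_ker, hfdef]
    change e (QuotientGroup.mk' (Subgroup.center K) x) = 1 ↔ _
    rw [map_eq_one_iff e e.injective, ← MonoidHom.mem_ker, QuotientGroup.ker_mk']
  obtain ⟨P, hP⟩ := exists_PD (f := f) (p := p) hf hker.le (by rw [hker]; exact hz)
  exact ⟨P, UU f P, NN f, bn_of_PD hn hp hq hf hker (by rw [hker]; exact hz) hP⟩

end Pool.Agent.Helper68.TS
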