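import Pool.Agent.Helper68.TS.Defs

/-!
# TS-02: `p`-elements over diagonal matrices are in `P` (MP_5ecade_al, project TD, block S)

`x` lifts `g ∈ DG` and `x ^ p ^ N = 1`, so `mk g` has `p`-power order in `PSL_n(k)`. Let `m = orderOf g = p ^ a * b`, `p ∤ b`
(`Nat.exists_eq_pow_mul_and_not_dvd`, or work with `Nat.Coprime`). Let `z = g ^ (b * c)` with `b c = 1 mod p ^ (max ..)`. Simplest form: choose `M ≥ N`, `M ≥ a`;
`p ^ M` and `b` are coprime, so there is `e : ℕ` with `e ≡ 1 mod p ^ M`, `e ≡ 0 mod b` (`Nat.chineseRemainder`). Put `z = g ^ e`: `z ^ p ^ M = g ^ (e p ^ M) = 1` as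
`m ∣ e p ^ M`, so `z ∈ TP`. `x ^ e` lifts `z`, and `x ^ e = x` as `x ^ p ^ M = 1` and `e ≡ 1 mod p ^ M`. So `x` lifts `z ∈ TP`. Let `x' ∈ P` lift `z` (`PD.up`):
`x = x' c` with `c ∈ f.ker` (`Lf.ker`), central, so `c = x'⁻¹ x` has `p`-power order (`Commute.mul_pow`), and `|f.ker|` is prime to `p`, so `c = 1`
(as in `eq_one_of_ker` in Helper68/BR/PSyl.lean, private there, copy it).
-/

namespace Pool.Agent.Helper68.TS

open Matrix Pool.Agent.Helper68.BR

variable {n : ℕ} {k : Type} [Field k] [Finite k] {K : Type} [Group K] [Finite K] {p : ℕ} [Fact p.Prime]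
  {f : K →* ProjectiveSpecialLinearGroup (Fin n) k} {P : Subgroup K}

omit [Finite K] in
private theorem eq_one_of_ker (hz : ¬ p ∣ Nat.card f.ker) {c : K} (hc : c ∈ f.ker) {N : ℕ}
    (hN : c ^ p ^ N = 1) : c = 1 := by
  have hp : p.Prime := Fact.out
  have h1 : orderOf c ∣ p ^ N := orderOf_dvd_of_pow_eq_one hN
  have h2 : orderOf c ∣ Nat.card f.ker := by
    have h3 : orderOf (⟨c, hc⟩ : f.ker) ∣ Nat.card f.ker := orderOf_dvd_natCard _
    rwa [Subgroup.orderOf_mk] at h3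
  have h4 : Nat.Coprime (p ^ N) (Nat.card f.ker) :=
    Nat.Coprime.pow_left N ((Nat.Prime.coprime_iff_not_dvd hp).2 hz)
  have h5 : orderOf c = 1 := Nat.dvd_one.1 (h4 ▸ Nat.dvd_gcd h1 h2)
  exact orderOf_eq_one_iff.1 h5

private theorem lf_pow {x : K} {g : SpecialLinearGroup (Fin n) k} (h : Lf f x g) (e : ℕ) :
    Lf f (x ^ e) (g ^ e) := by
  have h1 : f x = QuotientGroup.mk g := h
  change f (x ^ e) = QuotientGroup.mk (g ^ e)
  rw [map_pow, h1]
  rfl

theorem mem_P_of (hc : f.ker ≤ Subgroup.center K) (hz : ¬ p ∣ Nat.card f.ker) (hP : PD p f P)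
    {x : K} (hx : x ∈ DT f) {N : ℕ} (hN : x ^ p ^ N = 1) : x ∈ P := by
  have hp : p.Prime := Fact.out
  obtain ⟨g, hg, hxg⟩ := mem_DT.1 hx
  have hm : orderOf g ≠ 0 := (orderOf_pos g).ne'
  obtain ⟨a, b, hb, hab⟩ := Nat.exists_eq_pow_mul_and_not_dvd hm p hp.ne_one
  have hcop : Nat.Coprime (p ^ (N + a)) b :=
    Nat.Coprime.pow_left _ ((Nat.Prime.coprime_iff_not_dvd hp).2 hb)
  obtain ⟨e, he1, he0⟩ := Nat.chineseRemainder hcop 1 0
  have hbe : b ∣ e := (Nat.modEq_zero_iff_dvd).1 he0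
  have hz1 : (g ^ e) ^ p ^ (N + a) = 1 := by
    rw [← pow_mul]
    apply orderOf_dvd_iff_pow_eq_one.1
    rw [hab, mul_comm (p ^ a) b]
    exact Nat.mul_dvd_mul hbe (pow_dvd_pow p (by omega))
  have hzTP : g ^ e ∈ TP n k p := ⟨Subgroup.pow_mem _ hg e, N + a, hz1⟩
  have hxpow : x ^ p ^ (N + a) = 1 := by
    rw [pow_add, pow_mul, hN, one_pow]
  have hxe : x ^ e = x := by
    have h1 : orderOf x ∣ p ^ (N + a) := orderOf_dvd_of_pow_eq_one hxpow
    have h2 : e ≡ 1 [MOD orderOf x] := Nat.ModEq.of_dvd h1 he1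
    have h3 := (pow_eq_pow_iff_modEq (x := x)).2 h2
    rwa [pow_one] at h3
  have hL : Lf f x (g ^ e) := by
    have h1 := lf_pow hxg e
    rwa [hxe] at h1
  obtain ⟨x', hx'P, hx'L⟩ := hP.up _ hzTP
  obtain ⟨c, hcker, hceq⟩ := hL.ker hx'L
  have hcomm : Commute x' c := by
    have := Subgroup.mem_center_iff.1 (hc hcker) x'
    exact this
  obtain ⟨M, hM⟩ := hP.pgroup ⟨x', hx'P⟩
  have hM' : x' ^ p ^ M = 1 := by
    have := congrArg Subtype.val hM
    simpa using this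
  have h1 : x ^ p ^ (N + M) = 1 := by
    rw [pow_add, pow_mul, hN, one_pow]
  have h2 : x' ^ p ^ (N + M) = 1 := by
    rw [pow_add, mul_comm (p ^ N), pow_mul, hM', one_pow]
  have h3 : c ^ p ^ (N + M) = 1 := by
    rw [hceq, hcomm.mul_pow, h2, one_mul] at h1
    exact h1
  have h4 : c = 1 := eq_one_of_ker hz hcker h3
  rw [hceq, h4, mul_one]
  exact hx'P

end Pool.Agent.Helper68.TS
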