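import Pool.Agent.Helper81.TD.E2
import Pool.Agent.Helper68.BR.SumFixed

/-!
# Project TD, E4: degrees modulo `p`

`|U| ψ(1) = ∑_{u ∈ U} θ(u)`; `P` acts on `U` by conjugation with the only fixed point `1` and `θ` is a class function, so this is
`θ(1) + p a` with an algebraic integer `a`; `|U| = 1` modulo `p`.
-/

set_option autoImplicit false

namespace Pool.Agent.Helper81.TD

open Matrix

open Pool.Agent.Helper42.INC Pool.Agent.Helper7.MK Pool.Agent.Helper57.PL.Rep

private theorem char_int {M : Type} [Group M] [Finite M] {V : Type} [AddCommGroup V]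
    [Module ℂ V] [FiniteDimensional ℂ V] (ρ : Representation ℂ M V) (g : M) :
    IsIntegral ℤ (ρ.character g) := by
  have h1 : ρ.character g = (LinearMap.charpoly (ρ g)).roots.sum :=
    Module.End.trace_eq_sum_roots_charpoly_of_splits (IsAlgClosed.splits _)
  rw [h1]
  refine IsIntegral.multiset_sum fun l hl => ?_
  have h2 : Module.End.HasEigenvalue (ρ g) l :=
    (Module.End.hasEigenvalue_iff_isRoot_charpoly _ _).2
      ((Polynomial.mem_roots'.1 hl).2)
  obtain ⟨v, hv⟩ := h2.exists_hasEigenvector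
  have h3 : ∀ m : ℕ, (ρ g ^ m) v = l ^ m • v := by
    intro m
    induction m with
    | zero => simp
    | succ m ih =>
      rw [pow_succ', pow_succ', Module.End.mul_apply, ih, map_smul, hv.apply_eq_smul, smul_smul,
        mul_comm l]
  have h4 : l ^ orderOf g = 1 := by
    have h5 := h3 (orderOf g)
    rw [← map_pow, pow_orderOf_eq_one, map_one, Module.End.one_apply] at h5
    have h6 : (l ^ orderOf g - 1) • v = 0 := by rw [sub_smul, one_smul, ← h5, sub_self]
    rcases smul_eq_zero.1 h6 with h7 | h7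
    · exact sub_eq_zero.1 h7
    · exact absurd h7 hv.2
  have h5 : IsIntegral ℤ (l ^ orderOf g) := by rw [h4]; exact isIntegral_one
  exact h5.of_pow (orderOf_pos g)

private theorem int_dvd {p : ℕ} (hp : 0 < p) {z : ℤ} {a : ℂ} (ha : IsIntegral ℤ a)
    (h : (z : ℂ) = p * a) : (p : ℤ) ∣ z := by
  have hp' : (p : ℂ) ≠ 0 := by exact_mod_cast hp.ne'
  have h1 : a = algebraMap ℚ ℂ ((z : ℚ) / (p : ℚ)) := by
    rw [eq_comm]
    push_cast [map_div₀]
    rw [div_eq_iff (by simpa using hp')]
    simp only [map_intCast, map_natCast]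
    rw [h, mul_comm]
  rw [h1] at ha
  have h2 : IsIntegral ℤ ((z : ℚ) / (p : ℚ)) :=
    (isIntegral_algebraMap_iff (algebraMap ℚ ℂ).injective).1 ha
  obtain ⟨y, hy⟩ := IsIntegrallyClosed.isIntegral_iff.1 h2
  refine ⟨y, ?_⟩
  have hp'' : (p : ℚ) ≠ 0 := by exact_mod_cast hp.ne'
  rw [eq_div_iff hp''] at hy
  have h3 : (z : ℚ) = ((p * y : ℤ) : ℚ) := by
    rw [← hy]
    push_cast
    simp [mul_comm]
  exact_mod_cast h3

variable {K : Type} [Group K] [Fintype K] {p : ℕ} [Fact p.Prime] {P U N : Subgroup K}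
  [Fintype N] [DecidableEq N] {X Y : N → N → ℂ} {d : ℕ}

private theorem sum_U (h : BN p P U N) (θ : K → ℂ) [Fintype U] :
    ∑ g, tf U 1 g * θ g = (Nat.card U : ℂ)⁻¹ * ∑ u : U, θ u := by
  classical
  have h1 : ∀ g, tf U 1 g * θ g = if g ∈ U then (Nat.card U : ℂ)⁻¹ * θ g else 0 := by
    intro g
    by_cases hg : g ∈ U
    · rw [if_pos hg, tf_eq, tR_pos ⟨g, hg, 1, U.one_mem, by simp⟩]
    · rw [if_neg hg, tf_one g hg, zero_mul]
  rw [Finset.sum_congr rfl fun g _ => h1 g, ← Finset.sum_filter, Finset.mul_sum]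
  rw [← Finset.sum_subtype (s := Finset.univ.filter fun g => g ∈ U) (p := fun g => g ∈ U)
    (f := fun g => (Nat.card U : ℂ)⁻¹ * θ g) (by simp)]

/-- E4 -/
theorem psi_deg (h : BN p P U N)
    (hX : Iso ((TT P N).subgroupOf N) (AutUN U N) gc (fun a b r => (hc U N a b r : ℂ)) X Y)
    {θ : K → ℂ} (hθ : θ ∈ Irr K) :
    ∃ m n : ℕ, psi U X θ 1 = m ∧ θ 1 = n ∧ m ≡ n [MOD p] := by
  classical
  obtain ⟨d, D, hd, rfl⟩ := gl_mat hθ
  obtain ⟨R⟩ := h.exists_rho hX D
  refine ⟨R.m, d, R.psi_one h, ?_, ?_⟩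
  · show (D 1).trace = d
    rw [map_one, Matrix.trace_one, Fintype.card_fin]
  have : Fintype U := Fintype.ofFinite U
  have hU0 : (Nat.card U : ℂ) ≠ 0 := Nat.cast_ne_zero.mpr Nat.card_pos.ne'
  have h1 : (Nat.card U : ℂ) * R.m = ∑ u : U, (D u).trace := by
    have h2 := R.psi_one h
    unfold psi at h2
    rw [Finset.sum_eq_single (1 : N), hX.one, if_pos rfl, one_mul, Subgroup.coe_one,
      sum_U h] at h2
    · rw [← h2, ← mul_assoc, mul_inv_cancel₀ hU0, one_mul]
    · intro r _ hr
      rw [hX.one, if_neg hr, zero_mul]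
    · intro h3
      exact absurd (Finset.mem_univ _) h3
  -- the action of `P` on `U`
  letI act : MulAction P U :=
    { smul := fun x u => ⟨(x : K) * u * (x : K)⁻¹, h.normP x.2 u.2⟩
      one_smul := fun u => Subtype.ext (by
        show ((1 : P) : K) * u * ((1 : P) : K)⁻¹ = u
        simp)
      mul_smul := fun x y u => Subtype.ext (by
        show ((x * y : P) : K) * u * ((x * y : P) : K)⁻¹ =
          (x : K) * ((y : K) * u * (y : K)⁻¹) * (x : K)⁻¹
        push_cast
        group) }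
  have hint : ∀ g : K, IsIntegral ℤ (D g).trace := by
    intro g
    have h2 := char_int (glRep D) g
    rw [gl_char] at h2
    exact h2
  obtain ⟨a, ha⟩ := Pool.Agent.Helper68.BR.sum_fixed (Q := P) (X := U) (V := integralClosure ℤ ℂ)
    h.pgroup (fun u => ⟨(D u).trace, hint u⟩) (fun x u => Subtype.ext (by
      show (D ((x : K) * u * (x : K)⁻¹)).trace = (D u).trace
      rw [map_mul, map_mul, Matrix.trace_mul_comm, ← Matrix.mul_assoc, ← map_mul,
        inv_mul_cancel, map_one, Matrix.one_mul])) {1} (fun u => by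
      rw [Finset.mem_singleton]
      constructor
      · rintro rfl x
        refine Subtype.ext ?_
        show (x : K) * ((1 : U) : K) * (x : K)⁻¹ = ((1 : U) : K)
        simp
      · intro hu
        refine Subtype.ext (h.fix u u.2 fun x hx => ?_)
        have h3 : x * (u : K) * x⁻¹ = u := congrArg Subtype.val (hu ⟨x, hx⟩)
        exact mul_inv_eq_iff_eq_mul.1 h3)
  have h2 : ∑ u : U, (D u).trace = (d : ℂ) + p * (a : ℂ) := by
    have h3 := congrArg (algebraMap (integralClosure ℤ ℂ) ℂ) ha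
    rw [map_sum, map_add, Finset.sum_singleton] at h3
    have h4 : algebraMap (integralClosure ℤ ℂ) ℂ (⟨(D ((1 : U) : K)).trace, hint _⟩) = d := by
      show (D ((1 : U) : K)).trace = d
      rw [Subgroup.coe_one, map_one, Matrix.trace_one, Fintype.card_fin]
    rw [h4] at h3
    refine h3.trans ?_
    congr 1
    rw [nsmul_eq_mul, map_mul, map_natCast]
    rfl
  have h3 : (p : ℤ) ∣ ((Nat.card U : ℤ) * R.m - d) := by
    refine int_dvd (Fact.out : p.Prime).pos a.2 ?_
    push_cast
    rw [h1, h2]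
    ring
  have h4 : d ≡ Nat.card U * R.m [MOD p] := by
    rw [Nat.modEq_iff_dvd]
    push_cast
    exact h3
  have h5 : Nat.card U * R.m ≡ 1 * R.m [MOD p] := h.card_U.mul_right _
  rw [one_mul] at h5
  exact (h4.trans h5).symm

end Pool.Agent.Helper81.TD
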