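import Pool.Agent.Helper68.TS.Defs

/-!
# TS-06: the rank one Bruhat decomposition in `SL_n(k)` (MP_5ecade_al, project TD, block S)

`j = i + 1`. `g ∈ UT`, `a = g i j`, `g = g₁ * tv (i < j) a` with `g₁ = g * tv (-a) ∈ UT` and `g₁ i j = 0` (`(g * tv (-a)) i j = g i j - a g i i`).
(1) `m g₁ m⁻¹ ∈ UT` (`conj_mem`): entry `(r, s)` of `m g₁ m⁻¹` is `m_{r, τ r} g₁ (τ r) (τ s) (m⁻¹)_{τ s, s}` up to the names (`τ = swap i j`; `MP.mul_apply`, `MP.apply_mul`, `MP.inv`): the diagonal entries are
`m_{r,τ r} (m⁻¹)_{τ r, r} = 1`; for `s < r`: `τ s < τ r` unless `(s, r) = (i, j)` (`j = i + 1`: `Equiv.swap_apply_def`, `omega`), then `g₁ (τ r) (τ s) = 0`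
by `mem_UT`; for `(s, r) = (i, j)` the entry is `g₁ i j = 0`. So `m g w = (m g₁ m⁻¹) m tv(a) w`.
(2) If `σ⁻¹ ...`: `w⁻¹ tv(i, j; a) w = tv(σ i, σ j; a')` for some `a'` (`MP σ w`: entry computation: the matrix `w⁻¹ (1 + a E_ij) w = 1 + a w⁻¹ E_ij w`, and
`w⁻¹ E_ij w` has the only entry at `(σ i, σ j)`). If `σ i < σ j` it is in `UT`: `m g w = (m g₁ m⁻¹) (m w) (w⁻¹ tv(a) w)`, `d = 1`, first case.
(3) If `σ j < σ i` and `a = 0`: `m g w = (m g₁ m⁻¹) (m w)`: first case, `d = 1`.
(4) If `σ j < σ i` and `a ≠ 0`: with `b = a⁻¹`: the matrix identity in the rows and columns `i, j`: `m tv(i,j;a) m⁻¹ = tv(j,i;a'')` (`a'' ≠ 0`), and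
`tv(j,i;c) = tv(i,j;c⁻¹) * m' * tv(i,j;c⁻¹)` with `m' = tv(i,j;-c⁻¹) tv(j,i;c) tv(i,j;-c⁻¹)`, which is monomial with the permutation `swap i j` (`2 × 2` block
`[[0, -c⁻¹], [c, 0]]`, `tv_tri`). So `m tv(a) w = tv(i,j;c⁻¹) m' tv(i,j;c⁻¹) m w`, and `(m w)⁻¹ tv(i,j;c⁻¹) (m w) = tv(σ' i, σ' j; ..)`, where `m w` has the permutation `σ * swap i j`, `i ↦ σ j`, `j ↦ σ i`,
in `UT` as `σ j < σ i`. So `m g w = v (m' m w) v'`, `m' m ∈ DG` (`MP.mul`, `swap * swap = 1`, `mp_one_iff`) and `m' m w = w (w⁻¹ m' m w)`, `w⁻¹ (m' m) w ∈ DG` (permutation `σ σ⁻¹`). Second case.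
-/

namespace Pool.Agent.Helper68.TS

open Matrix Pool.Agent.Helper68.BR

variable {n : ℕ} {k : Type} [Field k]

private theorem tv_apply {i j : Fin n} (h : i ≠ j) (s : k) (a b : Fin n) :
    (tv h s).1 a b = (if a = b then 1 else 0) + (if i = a ∧ j = b then s else 0) := by
  change (1 + Matrix.single i j s : Matrix (Fin n) (Fin n) k) a b = _
  rw [Matrix.add_apply, Matrix.one_apply, Matrix.single_apply]

private theorem tv_mul_apply {i j : Fin n} (h : i ≠ j) (s : k) (g : SpecialLinearGroup (Fin n) k)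
    (a b : Fin n) :
    (tv h s * g).1 a b = g.1 a b + (if a = i then s * g.1 j b else 0) := by
  change ((tv h s).1 * g.1) a b = _
  rw [Matrix.mul_apply]
  have h1 : ∀ l, (tv h s).1 a l * g.1 l b =
      (if a = l then g.1 l b else 0) + (if l = j then (if a = i then s * g.1 j b else 0) else 0) := by
    intro l
    rw [tv_apply, add_mul]
    congr 1
    · split_ifs <;> simp
    · by_cases h2 : l = j
      · subst h2
        by_cases h3 : a = i
        · subst h3; simp
        · simp [h3, Ne.symm h3]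
      · simp [h2, Ne.symm h2]
  rw [Finset.sum_congr rfl fun l _ => h1 l, Finset.sum_add_distrib]
  simp

theorem conj_UT {σ : Equiv.Perm (Fin n)} {w X : SpecialLinearGroup (Fin n) k} (hw : MP σ w)
    (h1 : ∀ r, X.1 r r = 1) (h2 : ∀ r s, σ s < σ r → X.1 r s = 0) : w⁻¹ * X * w ∈ UT n k := by
  have key : ∀ r s, (w⁻¹ * X * w).1 (σ r) (σ s) =
      (w⁻¹).1 (σ r) r * X.1 r s * w.1 s (σ s) := by
    intro r s
    rw [hw.apply_mul]
    have h3 := hw.inv.mul_apply X (σ r) s
    have h4 : σ⁻¹ (σ r) = r := σ.symm_apply_apply r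
    rw [h4] at h3
    rw [h3]
  have key2 : ∀ r, (w⁻¹).1 (σ r) r * w.1 r (σ r) = 1 := by
    intro r
    have h3 := hw.apply_mul w⁻¹ (σ r) r
    rw [inv_mul_cancel] at h3
    rw [← h3]
    exact Matrix.one_apply_eq _
  refine mem_UT.2 ⟨fun i => ?_, fun i j hij => ?_⟩
  · obtain ⟨r, rfl⟩ := σ.surjective i
    rw [key, h1, mul_one, key2]
  · obtain ⟨r, rfl⟩ := σ.surjective i
    obtain ⟨s, rfl⟩ := σ.surjective j
    rw [key, h2 r s hij, mul_zero, zero_mul]

/-- the monomial matrix `tv(j,i;-b) tv(i,j;a) tv(j,i;-b)`, `a b = 1` -/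
private theorem mp_three {i j : Fin n} (hij : i ≠ j) {a b : k} (hab : a * b = 1) :
    MP (Equiv.swap i j) (tv hij.symm (-b) * (tv hij a * tv hij.symm (-b))) := by
  intro r s hs
  rw [tv_mul_apply, tv_mul_apply, tv_mul_apply]
  simp only [tv_apply]
  by_cases hr : r = i
  · subst hr
    rw [Equiv.swap_apply_left] at hs
    by_cases h1 : r = s
    · subst h1
      simp [hij, hij.symm, hab]
    · simp [hij, hij.symm, h1, Ne.symm hs]
  · by_cases hr' : r = j
    · subst hr'
      rw [Equiv.swap_apply_right] at hs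
      by_cases h1 : r = s
      · subst h1
        simp only [hr, if_true, if_false, hij, and_false, add_zero]
        have h2 : b * a = 1 := by rw [mul_comm]; exact hab
        simp [h2]
      · simp [hr, h1, Ne.symm hs]
    · rw [Equiv.swap_apply_of_ne_of_ne hr hr'] at hs
      simp [hr, hr', Ne.symm hs, Ne.symm hr']

private theorem swap_lt {i j : Fin n} (hij : (i : ℕ) + 1 = j) {r s : Fin n}
    (h : Equiv.swap i j s < Equiv.swap i j r) : s < r ∨ (r = i ∧ s = j) := by
  have hne : ∀ {x y : Fin n}, ¬ x = y → (x : ℕ) ≠ y := fun hxy h => hxy (Fin.ext h)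
  by_cases hr : r = i
  · subst hr
    by_cases hs : s = j
    · exact Or.inr ⟨rfl, hs⟩
    · left
      rw [Equiv.swap_apply_left] at h
      by_cases hs' : s = r
      · subst hs'
        rw [Equiv.swap_apply_left] at h
        exact absurd h (lt_irrefl _)
      · rw [Equiv.swap_apply_of_ne_of_ne hs' hs, Fin.lt_def] at h
        have := hne hs'
        rw [Fin.lt_def]
        omega
  · left
    by_cases hr' : r = j
    · subst hr'
      rw [Equiv.swap_apply_right] at h
      by_cases hs : s = i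
      · subst hs
        rw [Equiv.swap_apply_left, Fin.lt_def] at h
        omega
      · by_cases hs' : s = r
        · subst hs'
          rw [Equiv.swap_apply_right] at h
          exact absurd h (lt_irrefl _)
        · rw [Equiv.swap_apply_of_ne_of_ne hs hs', Fin.lt_def] at h
          rw [Fin.lt_def]
          omega
    · rw [Equiv.swap_apply_of_ne_of_ne hr hr'] at h
      have h1 := hne hr
      have h2 := hne hr'
      by_cases hs : s = i
      · subst hs
        rw [Equiv.swap_apply_left, Fin.lt_def] at h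
        rw [Fin.lt_def]
        omega
      · by_cases hs' : s = j
        · subst hs'
          rw [Equiv.swap_apply_right, Fin.lt_def] at h
          rw [Fin.lt_def]
          omega
        · rwa [Equiv.swap_apply_of_ne_of_ne hs hs'] at h

theorem rank_one {i j : Fin n} (hij : (i : ℕ) + 1 = j) {σ : Equiv.Perm (Fin n)}
    {m w g : SpecialLinearGroup (Fin n) k} (hm : MP (Equiv.swap i j) m) (hw : MP σ w)
    (hg : g ∈ UT n k) :
    ∃ v ∈ UT n k, ∃ v' ∈ UT n k, ∃ d ∈ DG n k,
      m * g * w = v * (m * w * d) * v' ∨ m * g * w = v * (w * d) * v' := by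
  have hlt : i < j := by rw [Fin.lt_def]; omega
  have hm' : MP (Equiv.swap i j) m⁻¹ := by
    have h := hm.inv
    rwa [Equiv.swap_inv] at h
  obtain ⟨a, ha⟩ : ∃ a, a = g.1 i j := ⟨_, rfl⟩
  have htv : ∀ s : k, tv hlt.ne s ∈ UT n k := fun s =>
    Subgroup.subset_closure ⟨i, j, hlt, s, rfl⟩
  -- the first factor
  have hg1 : g * tv hlt.ne (-a) ∈ UT n k := Subgroup.mul_mem _ hg (htv _)
  have hg1' : (g * tv hlt.ne (-a)).1 i j = 0 := by
    change (g.1 * (tv hlt.ne (-a)).1) i j = 0
    rw [Matrix.mul_apply]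
    have h1 : ∀ l, g.1 i l * (tv hlt.ne (-a)).1 l j =
        (if l = j then g.1 i j else 0) + (if l = i then - a else 0) := by
      intro l
      rw [tv_apply, mul_add]
      congr 1
      · by_cases hl : l = j
        · subst hl; simp
        · simp [hl]
      · by_cases hl : l = i
        · subst hl; simp [(mem_UT.1 hg).1]
        · simp [hl, Ne.symm hl]
    rw [Finset.sum_congr rfl fun l _ => h1 l, Finset.sum_add_distrib]
    simp [ha]
  have hA : m * (g * tv hlt.ne (-a)) * m⁻¹ ∈ UT n k := by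
    have h1 := conj_UT (X := g * tv hlt.ne (-a)) hm' (mem_UT.1 hg1).1 fun r s hrs => by
      rcases swap_lt hij hrs with h | ⟨rfl, rfl⟩
      · exact (mem_UT.1 hg1).2 r s h
      · exact hg1'
    rwa [inv_inv] at h1
  have hinv : tv hlt.ne (-a) * tv hlt.ne a = 1 := by
    change SpecialLinearGroup.transvection hlt.ne (-a) * SpecialLinearGroup.transvection hlt.ne a = 1
    rw [← SpecialLinearGroup.transvection_inv, inv_mul_cancel]
  have hfac : m * g * w = (m * (g * tv hlt.ne (-a)) * m⁻¹) * (m * tv hlt.ne a * w) := by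
    have : m * g * w = m * (g * (tv hlt.ne (-a) * tv hlt.ne a)) * w := by rw [hinv, mul_one]
    rw [this]
    group
  by_cases ha0 : a = 0
  · refine ⟨_, hA, 1, Subgroup.one_mem _, 1, Subgroup.one_mem _, Or.inl ?_⟩
    rw [hfac, ha0]
    have h1 : tv hlt.ne (0 : k) = 1 := by
      change SpecialLinearGroup.transvection hlt.ne (0 : k) = 1
      rw [SpecialLinearGroup.transvection_coeff_zero]
    rw [h1]
    simp only [mul_one]
  rcases lt_or_ge (σ i) (σ j) with hσ | hσ
  · -- the transvection moves to the right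
    refine ⟨_, hA, w⁻¹ * tv hlt.ne a * w, ?_, 1, Subgroup.one_mem _, Or.inl ?_⟩
    · refine conj_UT hw (fun r => ?_) fun r s hrs => ?_
      · rw [tv_apply]
        simp only [if_true, add_eq_left, ite_eq_right_iff, and_imp]
        rintro rfl h
        exact absurd h.symm hlt.ne
      · have h1 : r ≠ s := fun h => by rw [h] at hrs; exact lt_irrefl _ hrs
        have h2 : ¬ (i = r ∧ j = s) := by
          rintro ⟨rfl, rfl⟩
          exact lt_asymm hrs hσ
        rw [tv_apply, if_neg h1, if_neg h2, add_zero]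
    · rw [hfac]
      group
  · have hσ' : σ j < σ i := lt_of_le_of_ne hσ fun h => hlt.ne (σ.injective h).symm
    have hab : a * a⁻¹ = 1 := mul_inv_cancel₀ ha0
    have hM := mp_three hlt.ne hab
    obtain ⟨M, hMdef⟩ : ∃ M, M = tv hlt.ne.symm (-a⁻¹) * (tv hlt.ne a * tv hlt.ne.symm (-a⁻¹)) :=
      ⟨_, rfl⟩
    rw [← hMdef] at hM
    have hinv' : ∀ c : k, tv hlt.ne.symm c * tv hlt.ne.symm (-c) = 1 := by
      intro c
      change SpecialLinearGroup.transvection hlt.ne.symm c *
        SpecialLinearGroup.transvection hlt.ne.symm (-c) = 1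
      rw [← SpecialLinearGroup.transvection_inv, mul_inv_cancel]
    have hinv'' : ∀ c : k, tv hlt.ne.symm (-c) * tv hlt.ne.symm c = 1 := by
      intro c
      change SpecialLinearGroup.transvection hlt.ne.symm (-c) *
        SpecialLinearGroup.transvection hlt.ne.symm c = 1
      rw [← SpecialLinearGroup.transvection_inv, inv_mul_cancel]
    have htvM : tv hlt.ne a = tv hlt.ne.symm a⁻¹ * M * tv hlt.ne.symm a⁻¹ := by
      rw [hMdef]
      calc tv hlt.ne a = (tv hlt.ne.symm a⁻¹ * tv hlt.ne.symm (-a⁻¹)) * tv hlt.ne a *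
            (tv hlt.ne.symm (-a⁻¹) * tv hlt.ne.symm a⁻¹) := by rw [hinv', hinv'', one_mul, mul_one]
        _ = _ := by simp only [mul_assoc]
    have hlow : ∀ c : k, ∀ r s, r ≠ s → ¬ (j = r ∧ i = s) → (tv hlt.ne.symm c).1 r s = 0 := by
      intro c r s h1 h2
      rw [tv_apply, if_neg h1, if_neg h2, add_zero]
    have hlowd : ∀ c : k, ∀ r, (tv hlt.ne.symm c).1 r r = 1 := by
      intro c r
      have h2 : ¬ (j = r ∧ i = r) := by
        rintro ⟨rfl, h⟩
        exact hlt.ne h
      rw [tv_apply, if_pos rfl, if_neg h2, add_zero]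
    have hB : m * tv hlt.ne.symm a⁻¹ * m⁻¹ ∈ UT n k := by
      have h1 := conj_UT (X := tv hlt.ne.symm a⁻¹) hm' (hlowd _) fun r s hrs => by
        refine hlow _ r s (fun h => ?_) ?_
        · rw [h] at hrs; exact lt_irrefl _ hrs
        · rintro ⟨rfl, rfl⟩
          rw [Equiv.swap_apply_left, Equiv.swap_apply_right] at hrs
          exact lt_asymm hrs hlt
      rwa [inv_inv] at h1
    have hC : w⁻¹ * tv hlt.ne.symm a⁻¹ * w ∈ UT n k := by
      refine conj_UT hw (hlowd _) fun r s hrs => ?_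
      refine hlow _ r s (fun h => ?_) ?_
      · rw [h] at hrs; exact lt_irrefl _ hrs
      · rintro ⟨rfl, rfl⟩
        exact lt_asymm hrs hσ'
    have hD : m * M ∈ DG n k := by
      have h1 := hm.mul hM
      rw [Equiv.swap_mul_self] at h1
      exact mp_one_iff.1 h1
    have hD' : w⁻¹ * (m * M) * w ∈ DG n k := by
      have h1 := (hw.inv.mul (mp_one_iff.2 hD)).mul hw
      rw [one_mul, mul_inv_cancel] at h1
      exact mp_one_iff.1 h1
    refine ⟨_, Subgroup.mul_mem _ hA hB, _, hC, _, hD', Or.inr ?_⟩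
    rw [hfac, htvM]
    group

/-- a monomial matrix with the permutation `swap i j` -/
theorem exists_swap {i j : Fin n} (hij : i ≠ j) :
    ∃ m : SpecialLinearGroup (Fin n) k, MP (Equiv.swap i j) m :=
  ⟨_, mp_three hij (one_mul (1 : k))⟩

end Pool.Agent.Helper68.TS
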