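import Pool.Agent.Helper68.TS.UUa
import Pool.Agent.Helper68.TS.TTeq
import Pool.Agent.Helper68.TS.Rank1

/-!
# TS-08: simple elements (MP_5ecade_al, project TD, block S)

`sim_of`: `IsSim P U N y` unfolded: `y ∈ NN` clear. `y ∉ TT = DT` (`TT_eq`): otherwise `m` is diagonal up to a central (scalar) matrix (`Lf.center`), so `MP 1 m`, `swap i j = 1` (`MP.unique`), `i = j`.
`y * y ∈ DT`: `m * m ∈ DG` (`MP.mul`, `Equiv.swap_mul_self`, `mp_one_iff`). The last condition: `w ∈ NN` lifts `w₀`, `MP σ w₀`, `u ∈ UU` lifts `g ∈ UT` (`uu_down`). `rank_one` gives `v, v', d`. Let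
`a, a' ∈ UU` lift `v, v'` (`uu_up`), `t₀` lift `d` (`exists_lf`). First case: `y u w` and `a (y w t₀) a'` lift the same matrix, so `y u w = a (y w t₀) a' c` with `c ∈ f.ker` central (`Lf.ker`),
`= a (y w (t₀ c)) a'`; `t = t₀ c ∈ DT = TT` (`Lf.mul_ker`). Second case the same with `w t₀`.
-/

namespace Pool.Agent.Helper68.TS

open Matrix Pool.Agent.Helper68.BR

variable {n : ℕ} {k : Type} [Field k] [Finite k] {K : Type} [Group K] [Finite K] {p : ℕ} [Fact p.Prime]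
  {f : K →* ProjectiveSpecialLinearGroup (Fin n) k} {P : Subgroup K}

omit [Finite k] in
private theorem center_dg {c : SpecialLinearGroup (Fin n) k}
    (hc : c ∈ Subgroup.center (SpecialLinearGroup (Fin n) k)) : c ∈ DG n k := by
  obtain ⟨r, -, hr⟩ := Matrix.SpecialLinearGroup.mem_center_iff.1 hc
  intro i j hij
  rw [← hr, Matrix.scalar_apply]
  exact Matrix.diagonal_apply_ne _ hij

omit [Finite k] [Finite K] in
private theorem absorb {f : K →* ProjectiveSpecialLinearGroup (Fin n) k} {P : Subgroup K}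
    (hc : f.ker ≤ Subgroup.center K)
    (hup : ∀ {g : SpecialLinearGroup (Fin n) k}, g ∈ UT n k → ∃ u ∈ UU f P, Lf f u g)
    (hf : Function.Surjective f) {x z : K} {h₀ w₀ v v' d : SpecialLinearGroup (Fin n) k}
    (hx : Lf f x h₀) (hw : Lf f z w₀) (hv : v ∈ UT n k) (hv' : v' ∈ UT n k) (hd : d ∈ DG n k)
    (he : h₀ = v * (w₀ * d) * v') :
    ∃ t ∈ DT f, Pool.Agent.Helper81.TD.DC (UU f P) (z * t) x := by
  obtain ⟨a, ha, hla⟩ := hup hv
  obtain ⟨a', ha', hla'⟩ := hup hv'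
  obtain ⟨t₀, ht₀⟩ := exists_lf hf d
  have h1 : Lf f (a * (z * t₀) * a') h₀ := by
    rw [he]
    exact (hla.mul (hw.mul ht₀)).mul hla'
  obtain ⟨c, hck, hxc⟩ := hx.ker h1
  have hcen := Subgroup.mem_center_iff.1 (hc hck)
  refine ⟨t₀ * c, ⟨d, hd, ht₀.mul_ker hck⟩, a, ha, a', ha', ?_⟩
  rw [hxc]
  have h2 := hcen a'
  calc a * (z * t₀) * a' * c = a * (z * t₀) * (a' * c) := by rw [mul_assoc]
    _ = a * (z * t₀) * (c * a') := by rw [h2]
    _ = a * (z * (t₀ * c)) * a' := by simp only [mul_assoc]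

theorem sim_of (hn : 3 ≤ n) (hp : 5 ≤ p) (hq : p ∣ Nat.card k - 1)
    (hf : Function.Surjective f) (hc : f.ker ≤ Subgroup.center K) (hz : ¬ p ∣ Nat.card f.ker)
    (hP : PD p f P) {i j : Fin n} (hij : (i : ℕ) + 1 = j) {y : K}
    {m : SpecialLinearGroup (Fin n) k} (hm : MP (Equiv.swap i j) m) (hy : Lf f y m) :
    Pool.Agent.Helper81.TD.IsSim P (UU f P) (NN f) y := by
  have hTT := TT_eq (f := f) (P := P) hp hq hz hP
  have hne : i ≠ j := by
    intro h
    subst h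
    omega
  refine ⟨⟨_, m, hm, hy⟩, ?_, ?_, ?_⟩
  · rw [hTT]
    rintro ⟨g, hg, hl⟩
    obtain ⟨c, hcc, hmc⟩ := hy.center hl
    have h1 : MP (1 * 1) m := by
      rw [hmc]
      exact (mp_one_iff.2 hg).mul (mp_one_iff.2 (center_dg hcc))
    have h2 := hm.unique h1
    rw [mul_one] at h2
    have h3 : Equiv.swap i j i = i := by rw [h2]; rfl
    rw [Equiv.swap_apply_left] at h3
    exact hne h3.symm
  · rw [hTT]
    refine ⟨m * m, ?_, hy.mul hy⟩
    have h1 := hm.mul hm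
    rw [Equiv.swap_mul_self] at h1
    exact mp_one_iff.1 h1
  · rintro w ⟨σ, w₀, hσ, hw⟩ u hu
    obtain ⟨g, hg, hug⟩ := uu_down hP hu
    have hup : ∀ {g : SpecialLinearGroup (Fin n) k}, g ∈ UT n k → ∃ u ∈ UU f P, Lf f u g :=
      fun hg => uu_up hn hp hq hf hc hP hg
    have hx : Lf f (y * u * w) (m * g * w₀) := (hy.mul hug).mul hw
    rw [hTT]
    obtain ⟨v, hv, v', hv', d, hd, h | h⟩ := rank_one hij hm hσ hg
    · obtain ⟨t, ht, hD⟩ := absorb hc hup hf hx (hy.mul hw) hv hv' hd h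
      exact ⟨t, ht, Or.inl hD⟩
    · obtain ⟨t, ht, hD⟩ := absorb hc hup hf hx hw hv hv' hd h
      exact ⟨t, ht, Or.inr hD⟩

end Pool.Agent.Helper68.TS
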