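import Pool.Agent.Helper68.TS.XXa

/-!
# BR-C13: the commutator relation for the canonical lifts

By `exists_wt` for `(i, j)`, `(j, b)` there is `z₀ ∈ TP` with `z₀ j j = z₀ b b`, `z₀ i i ≠ z₀ j j`; let `z ∈ P` lift it (`PD.up`).
(1) `z w z⁻¹ = w`: `z w z⁻¹ ∈ XX` (`xx_conj`) lifts the same transvection as `w` (`lf_conj`), so `z w z⁻¹ w⁻¹ ∈ XX ⊓ f.ker = 1`.
(2) there is `y₁ ∈ XX f P h` with `y = z y₁ z⁻¹ y₁⁻¹`: `y` lifts `tv s`; let `y₁ ∈ XX` lift `tv (s / (lam - 1))` (`xx_up`), `lam = z₀ i i / z₀ j j`; then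
`z y₁ z⁻¹ y₁⁻¹ ∈ XX` lifts `tv s`, so it equals `y` by `xx_ker`.
(3) For `u, v ∈ YY f h`: `⁅u v, w⁆ = u ⁅v, w⁆ u⁻¹ ⁅u, w⁆ = ⁅v, w⁆ ⁅u, w⁆`, since `⁅v, w⁆ ∈ YY f h''` (`tv_comm`) commutes with `u`
(`comm_diff` for `(i, b)`, `(i, j)`); similarly `⁅u⁻¹, w⁆ = ⁅u, w⁆⁻¹`. So with `v = ⁅y₁, w⁆ ∈ YY f h''`:
`⁅y, w⁆ = ⁅z y₁ z⁻¹ * y₁⁻¹, w⁆ = ⁅y₁⁻¹, w⁆ ⁅z y₁ z⁻¹, z w z⁻¹⁆ = v⁻¹ (z v z⁻¹) = z v z⁻¹ v⁻¹` (`YY f h''` is commutative, `comm_same`), which is in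
`XX f P h''` (`xx_comm`).
-/

namespace Pool.Agent.Helper68.TS

open Matrix Pool.Agent.Helper68.BR

variable {n : ℕ} {k : Type} [Field k] [Finite k] {K : Type} [Group K] {p : ℕ} [Fact p.Prime]
  {f : K →* ProjectiveSpecialLinearGroup (Fin n) k} {P : Subgroup K} {i j b : Fin n}

theorem xx_xx (hn : 3 ≤ n) (hp : 5 ≤ p) (hq : p ∣ Nat.card k - 1)
    (hf : Function.Surjective f) (hc : f.ker ≤ Subgroup.center K) (hP : PD p f P) (h : i ≠ j)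
    (h' : j ≠ b) (h'' : i ≠ b) {y w : K} (hy : y ∈ XX f P h) (hw : w ∈ XX f P h') :
    y * w * y⁻¹ * w⁻¹ ∈ XX f P h'' := by
  obtain ⟨z₀, hz₀, hjb, hij⟩ := exists_wt (n := n) (k := k) hp hq h h'
    (fun hh => h' hh.2) (fun hh => h'' hh.1)
  obtain ⟨x, hx, hxz⟩ := hP.up z₀ hz₀
  have hzD : z₀ ∈ DG n k := hz₀.1
  have hj0 : z₀.1 j j ≠ 0 := dg_ne hzD j
  -- two elements of `XX` which lift the same transvection are equal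
  have huniq : ∀ {a c : Fin n} (hac : a ≠ c) {u v : K} {s : k}, u ∈ XX f P hac → v ∈ XX f P hac →
      Lf f u (tv hac s) → Lf f v (tv hac s) → u = v := by
    intro a c hac u v s hu hv hus hvs
    have h1 : u * v⁻¹ ∈ XX f P hac := Subgroup.mul_mem _ hu (Subgroup.inv_mem _ hv)
    have h2 : Lf f (u * v⁻¹) (tv hac s * (tv hac s)⁻¹) := hus.mul hvs.inv
    rw [mul_inv_cancel] at h2
    have h3 := xx_ker hn hp hq hf hc hP hac h1 (lf_one.1 h2)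
    exact mul_inv_eq_one.1 h3
  -- (1)
  obtain ⟨t, ht⟩ := xx_le hP h' hw
  have hxw : x * w * x⁻¹ = w := by
    have h1 := lf_conj h' hxz hzD ht
    rw [← hjb, mul_inv_cancel₀ hj0, one_mul] at h1
    exact huniq h' (xx_conj hn hp hq hf hc hP h' hx hw) hw h1 ht
  -- (2)
  obtain ⟨s, hs⟩ := xx_le hP h hy
  set lam : k := z₀.1 i i * (z₀.1 j j)⁻¹ with hlam
  have hlam1 : lam - 1 ≠ 0 := by
    intro h0
    apply hij
    have h1 : lam = 1 := sub_eq_zero.1 h0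
    rw [hlam] at h1
    exact (mul_inv_eq_one₀ hj0).1 h1
  obtain ⟨y₁, hy₁, hy₁s⟩ := xx_up hn hp hq hf hc hP h (s / (lam - 1))
  have hyy : y = x * y₁ * x⁻¹ * y₁⁻¹ := by
    have h1 := lf_conj h hxz hzD hy₁s
    rw [← hlam] at h1
    have h2 : Lf f (x * y₁ * x⁻¹ * y₁⁻¹) (tv h (lam * (s / (lam - 1))) * (tv h (s / (lam - 1)))⁻¹) :=
      h1.mul hy₁s.inv
    have h3 : tv h (lam * (s / (lam - 1))) * (tv h (s / (lam - 1)))⁻¹ = tv h s := by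
      rw [SpecialLinearGroup.transvection_inv, ← SpecialLinearGroup.transvection_add]
      congr 1
      field_simp
      ring
    rw [h3] at h2
    exact huniq h hy (Subgroup.mul_mem _ (xx_conj hn hp hq hf hc hP h hx hy₁)
      (Subgroup.inv_mem _ hy₁)) hs h2
  -- (3)
  have hYc : ∀ u ∈ YY f h, u * w * u⁻¹ * w⁻¹ ∈ YY f h'' := by
    rintro u ⟨r, hr⟩
    refine ⟨r * t, ?_⟩
    have h1 : Lf f (u * w * u⁻¹ * w⁻¹) (tv h r * tv h' t * (tv h r)⁻¹ * (tv h' t)⁻¹) :=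
      ((hr.mul ht).mul hr.inv).mul ht.inv
    rw [tv_comm h h' h''] at h1
    exact h1
  have hmul : ∀ u ∈ YY f h, ∀ v ∈ YY f h, (u * v) * w * (u * v)⁻¹ * w⁻¹ =
      (v * w * v⁻¹ * w⁻¹) * (u * w * u⁻¹ * w⁻¹) := by
    intro u hu v hv
    have h1 : u * (v * w * v⁻¹ * w⁻¹) = (v * w * v⁻¹ * w⁻¹) * u :=
      comm_diff hp hq hf hc h h'' h.symm h'' (fun hh => h' hh.2) hu (hYc v hv)
    calc (u * v) * w * (u * v)⁻¹ * w⁻¹ = u * (v * w * v⁻¹ * w⁻¹) * w * u⁻¹ * w⁻¹ := by group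
      _ = (v * w * v⁻¹ * w⁻¹) * u * w * u⁻¹ * w⁻¹ := by rw [h1]
      _ = _ := by group
  have hy₁Y : y₁ ∈ YY f h := xx_le hP h hy₁
  have hcY : x * y₁ * x⁻¹ ∈ YY f h := xx_le hP h (xx_conj hn hp hq hf hc hP h hx hy₁)
  set v : K := y₁ * w * y₁⁻¹ * w⁻¹ with hv
  have hvY : v ∈ YY f h'' := hYc y₁ hy₁Y
  have hinv : y₁⁻¹ * w * (y₁⁻¹)⁻¹ * w⁻¹ = v⁻¹ := by
    have h1 := hmul y₁ hy₁Y y₁⁻¹ (Subgroup.inv_mem _ hy₁Y)
    rw [mul_inv_cancel, one_mul, inv_one, mul_one, mul_inv_cancel] at h1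
    exact (inv_eq_of_mul_eq_one_left h1.symm).symm
  have hconj : (x * y₁ * x⁻¹) * w * (x * y₁ * x⁻¹)⁻¹ * w⁻¹ = x * v * x⁻¹ := by
    have h1 : (x * y₁ * x⁻¹) * (x * w * x⁻¹) * (x * y₁ * x⁻¹)⁻¹ * (x * w * x⁻¹)⁻¹ =
        x * v * x⁻¹ := by
      rw [hv]
      group
    rw [hxw] at h1
    exact h1
  have hxv : x * v * x⁻¹ ∈ YY f h'' := by
    obtain ⟨r, hr⟩ := hvY
    exact ⟨_, lf_conj h'' hxz hzD hr⟩
  have hfin : y * w * y⁻¹ * w⁻¹ = x * v * x⁻¹ * v⁻¹ := by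
    rw [hyy, hmul _ hcY _ (Subgroup.inv_mem _ hy₁Y), hinv, hconj]
    exact (comm_same hn hf hc h'' (Subgroup.inv_mem _ hvY) hxv)
  rw [hfin]
  exact xx_comm h'' hx hvY

end Pool.Agent.Helper68.TS
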